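import Mathlib
import Pool.Graph.R_pool_sql_team_seeded_5cf16337.K3h28.NF.VCube

/-!
# Cubes of vectors and polynomial relations with coefficients in a finite dimensional space

`FreeOver W D x`: the numbers `x m` satisfy no nontrivial polynomial relation of degree at most `D`
with coefficients in the space `W`. Large cubes of vectors with independent coordinates contain
vertices with this property; this is the common generalisation of the theorems of
`Pool.Agent.K3h28.NF.VCube` (several coordinates) and `Pool.Agent.W245.CubeOver`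
(coefficients in a space).
-/

set_option autoImplicit false

namespace Pool.Agent.H443.VF

open Finset Module
open Pool.Agent.H297R2 (NoRel Ex DegLE LinePoly exists_hom cube_nonvanish noRel_iff
  totalDegree_sum_monomial_le)
open Pool.Agent.K3h28.NF (Wide exists_points degLE_prod)

/-- The numbers `x` satisfy no nontrivial polynomial relation of degree `≤ D` with coefficients
in `W`. -/
def FreeOver {κ C M : Type*} [CommRing κ] [CommRing C] [Algebra κ C] [Fintype M]
    (W : Submodule κ C) (D : ℕ) (x : M → C) : Prop :=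
  ∀ c : Ex M D → C, (∀ s, c s ∈ W) → ∑ s, c s * ∏ m, x m ^ (s.1 m) = 0 → ∀ s, c s = 0

theorem freeOver_iff {κ C M : Type*} [CommRing κ] [CommRing C] [Algebra κ C] [Fintype M]
    (W : Submodule κ C) (D : ℕ) (x : M → C) : FreeOver W D x ↔
      ∀ P : MvPolynomial M C, P.totalDegree ≤ D → (∀ s, P.coeff s ∈ W) →
        MvPolynomial.eval x P = 0 → P = 0 := by
  classical
  constructor
  · intro h P hP hW hx
    have hsupp : ∀ s ∈ P.support, s.degree ≤ D := by
      intro s hs
      have := MvPolynomial.le_totalDegree hs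
      exact le_trans this hP
    have h1 := h (fun s => P.coeff s.1) (fun s => hW s.1) (by
      rw [← hx]
      conv_rhs => rw [P.as_sum, map_sum]
      rw [← Finset.sum_subtype_of_mem (p := fun s : M →₀ ℕ => s.degree ≤ D)
        (f := fun s => MvPolynomial.eval x (MvPolynomial.monomial s (P.coeff s))) hsupp]
      symm
      apply Finset.sum_subset_zero_on_sdiff (Finset.subset_univ _)
      · intro s hs
        rw [Finset.mem_sdiff, Finset.mem_subtype] at hs
        have h0 : P.coeff s.1 = 0 := MvPolynomial.notMem_support_iff.1 hs.2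
        rw [h0, zero_mul]
      · intro s _
        rw [MvPolynomial.eval_monomial, Finsupp.prod_fintype _ _ (by simp)])
    ext s
    rw [MvPolynomial.coeff_zero]
    by_cases hs : s ∈ P.support
    · exact h1 ⟨s, hsupp s hs⟩
    · exact MvPolynomial.notMem_support_iff.1 hs
  · intro h c hcW hc s₀
    have h1 := h (∑ s : Ex M D, MvPolynomial.monomial s.1 (c s))
      (totalDegree_sum_monomial_le D _ _ (fun s _ => s.2) c) (by
        intro s
        rw [MvPolynomial.coeff_sum]
        apply Submodule.sum_mem
        intro s' _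
        rw [MvPolynomial.coeff_monomial]
        split_ifs
        · exact hcW s'
        · exact W.zero_mem) (by
        rw [map_sum, ← hc]
        apply Finset.sum_congr rfl
        intro s _
        rw [MvPolynomial.eval_monomial, Finsupp.prod_fintype _ _ (by simp)])
    have h2 := congrArg (MvPolynomial.coeff s₀.1) h1
    rw [MvPolynomial.coeff_sum, MvPolynomial.coeff_zero] at h2
    rw [Finset.sum_eq_single s₀] at h2
    · simpa using h2
    · intro b _ hb
      rw [MvPolynomial.coeff_monomial, if_neg]
      intro h3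
      exact hb (Subtype.ext h3)
    · intro h3; exact absurd (mem_univ _) h3

theorem FreeOver.mono {κ C M : Type*} [CommRing κ] [CommRing C] [Algebra κ C] [Fintype M]
    {W W' : Submodule κ C} (hW : W ≤ W') {D : ℕ} {x : M → C} (h : FreeOver W' D x) :
    FreeOver W D x := fun c hc h0 => h c (fun s => hW (hc s)) h0

/-- The evaluation determinant. -/
noncomputable def evalDetV {κ ι M : Type*} [Field κ] [Fintype ι] [Fintype M] (D : ℕ)
    (u : ι × Ex M D → ι → κ) (x : (ι × Ex M D) × M → κ) : κ := by
  classical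
  exact Matrix.det (Matrix.of fun (s : ι × Ex M D) (j : ι × Ex M D) =>
    (∏ c, x (j, c) ^ (s.2.1 c)) * u j s.1)

theorem sum_le {M : Type*} [Fintype M] {D : ℕ} (s : Ex M D) : ∑ c, s.1 c ≤ D := by
  refine le_trans ?_ s.2
  rw [Finsupp.degree_eq_sum]

theorem evalDetV_degLE {κ ι M : Type*} [Field κ] [Fintype ι] [Fintype M] (D : ℕ)
    (u : ι × Ex M D → ι → κ) :
    DegLE (Fintype.card (ι × Ex M D) * D) (evalDetV D u) := by
  classical
  have : evalDetV D u = fun x => ∑ π : Equiv.Perm (ι × Ex M D),
      ((Equiv.Perm.sign π : ℤ) : κ) * ∏ j, ((∏ c, x (j, c) ^ ((π j).2.1 c)) * u j (π j).1) := by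
    funext x
    unfold evalDetV
    rw [Matrix.det_apply']
    rfl
  rw [this]
  apply DegLE.sum
  intro π _
  apply DegLE.const_mul
  have h := DegLE.prod (univ : Finset (ι × Ex M D)) D
    (fun j (x : (ι × Ex M D) × M → κ) => (∏ c, x (j, c) ^ ((π j).2.1 c)) * u j (π j).1) (by
      intro j _
      have h1 : DegLE (∑ c, (π j).2.1 c)
          (fun x : (ι × Ex M D) × M → κ => ∏ c, x (j, c) ^ ((π j).2.1 c)) :=
        degLE_prod _ _ _ (fun c _ => (DegLE.coord (j, c)).pow _)
      have h3 := (h1.const_mul (u j (π j).1)).mono (sum_le (π j).2)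
      convert h3 using 2
      ring)
  rw [Finset.card_univ] at h
  exact h

theorem evalDetV_linePoly {κ ι M : Type*} [Field κ] [Fintype ι] [Fintype M] (D : ℕ)
    (u : ι × Ex M D → ι → κ) : LinePoly (evalDetV D u) := by
  classical
  have : evalDetV D u = fun x => ∑ π : Equiv.Perm (ι × Ex M D),
      ((Equiv.Perm.sign π : ℤ) : κ) * ∏ j, ((∏ c, x (j, c) ^ ((π j).2.1 c)) * u j (π j).1) := by
    funext x
    unfold evalDetV
    rw [Matrix.det_apply']
    rfl
  rw [this]
  apply LinePoly.sum
  intro π _
  apply LinePoly.mul (LinePoly.const _)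
  apply LinePoly.prod
  intro j _
  exact (LinePoly.prod _ _ (fun c _ => (LinePoly.coord (j, c)).pow _)).mul (LinePoly.const _)

/-- If `b` is linearly independent, so are the `b_i X^s`. -/
theorem monomials_indepV {κ A ι M : Type*} [Field κ] [CommRing A] [Algebra κ A] [Fintype ι]
    [Fintype M] (D : ℕ) (b : ι → A) (hb : LinearIndependent κ b) (c : ι × Ex M D → κ)
    (hc : ∑ s, c s • ((∏ m, (MvPolynomial.X m : MvPolynomial M A) ^ (s.2.1 m)) *
      MvPolynomial.C (b s.1)) = 0) :
    ∀ s, c s = 0 := by
  classical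
  rintro ⟨i, j⟩
  have h2 := congrArg (fun p => MvPolynomial.coeff j.1 p) hc
  simp only [MvPolynomial.coeff_sum, MvPolynomial.coeff_zero] at h2
  rw [Fintype.sum_prod_type] at h2
  have h6 : ∀ s : Ex M D, (∏ m, (MvPolynomial.X m : MvPolynomial M A) ^ (s.1 m)) =
      MvPolynomial.monomial s.1 1 := by
    intro s
    rw [MvPolynomial.monomial_eq, Finsupp.prod_fintype _ _ (by simp), map_one, one_mul]
  have h3 : ∀ i' : ι, ∑ j' : Ex M D, MvPolynomial.coeff j.1
      (c (i', j') • ((∏ m, (MvPolynomial.X m : MvPolynomial M A) ^ (j'.1 m)) *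
        MvPolynomial.C (b i'))) = c (i', j) • b i' := by
    intro i'
    rw [Finset.sum_eq_single j]
    · rw [h6, mul_comm (MvPolynomial.monomial _ _), MvPolynomial.C_mul_monomial, mul_one,
        MvPolynomial.coeff_smul, MvPolynomial.coeff_monomial, if_pos rfl]
    · intro j' _ hj'
      rw [h6, mul_comm (MvPolynomial.monomial _ _), MvPolynomial.C_mul_monomial, mul_one,
        MvPolynomial.coeff_smul, MvPolynomial.coeff_monomial, if_neg, smul_zero]
      intro h
      exact hj' (Subtype.ext h)
    · intro h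
      exact absurd (Finset.mem_univ _) h
  simp only [h3] at h2
  exact (Fintype.linearIndependent_iff.1 hb) (fun i' => c (i', j)) h2 i

/-- Existence of good evaluation points. -/
theorem exists_evalV {κ C ι M B : Type*} [Field κ] [IsAlgClosed κ] [Field C] [Algebra κ C]
    [Fintype ι] [Fintype M] [Fintype B] (D h : ℕ)
    (hB : Fintype.card M * Fintype.card (ι × Ex M D) + h < Fintype.card B)
    (t : ι → C) (ht : LinearIndependent κ t) {G : Type*} [Fintype G]
    (w : G → B → M → C) (hw : ∀ g, Wide κ h (w g)) (U : Set C) (hU : U.Finite)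
    (htU : ∀ i, t i ∈ U) (hwU : ∀ g i c, w g i c ∈ U) :
    ∃ τ : ι × Ex M D → (Algebra.adjoin κ U →ₐ[κ] κ),
      (∃ x₀, evalDetV D (fun j i => τ j ⟨t i, Algebra.subset_adjoin (htU i)⟩) x₀ ≠ 0) ∧
      ∀ g, Submodule.span κ (Set.range (fun i (p : (ι × Ex M D) × M) =>
        τ p.1 ⟨w g i p.2, Algebra.subset_adjoin (hwU g i p.2)⟩)) = ⊤ := by
  classical
  set A := Algebra.adjoin κ U with hA
  have hAfg : Algebra.FiniteType κ A := by
    rw [← Subalgebra.fg_iff_finiteType]
    exact ⟨hU.toFinset, by simp [hA]⟩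
  set N := Fintype.card (ι × Ex M D) with hN
  set tA : ι → A := fun i => ⟨t i, Algebra.subset_adjoin (htU i)⟩ with htA
  set wA : G → B → M → A := fun g i c => ⟨w g i c, Algebra.subset_adjoin (hwU g i c)⟩ with hwA
  have htA' : LinearIndependent κ tA := by
    rw [Fintype.linearIndependent_iff] at ht ⊢
    intro c hc
    apply ht c
    have h5 := congrArg A.val hc
    rw [map_sum, map_zero] at h5
    rw [← h5]
    apply Finset.sum_congr rfl
    intro s _
    rfl
  set fam : ι × Ex M D → MvPolynomial M A := fun s =>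
    (∏ m, (MvPolynomial.X m : MvPolynomial M A) ^ (s.2.1 m)) * MvPolynomial.C (tA s.1) with hfam
  set W : Submodule κ (MvPolynomial M A) := Submodule.span κ (Set.range fam) with hW
  have hfin : Module.Finite κ W := FiniteDimensional.span_of_finite κ (Set.finite_range _)
  let ιA : A →ₐ[κ] MvPolynomial M A := IsScalarTower.toAlgHom κ A (MvPolynomial M A)
  have hι : Function.Injective ιA := MvPolynomial.C_injective M A
  have hPfg : Algebra.FiniteType κ (MvPolynomial M A) :=
    Algebra.FiniteType.trans (S := A) hAfg inferInstance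
  obtain ⟨φ, hφ1, hφ2⟩ := exists_points κ A (MvPolynomial M A) ιA hι h wA hw N W
    (by
      rw [hW]
      exact finrank_range_le_card fam) (fun _ => ⊥) (fun g => by
      rw [finrank_bot]
      omega)
  have e : Fin N ≃ ι × Ex M D := (Fintype.equivFin _).symm
  let τ : ι × Ex M D → (A →ₐ[κ] κ) := fun j => (φ (e.symm j)).comp ιA
  refine ⟨τ, ?_, ?_⟩
  · refine ⟨fun p => φ (e.symm p.1) (MvPolynomial.X p.2), ?_⟩
    intro hdet
    unfold evalDetV at hdet
    rw [← Matrix.exists_vecMul_eq_zero_iff] at hdet
    obtain ⟨c, hc0, hc⟩ := hdet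
    apply hc0
    funext s
    refine monomials_indepV D tA htA' c ?_ s
    apply hφ1
    · apply Submodule.sum_mem
      intro s _
      exact Submodule.smul_mem _ _ (Submodule.subset_span ⟨s, rfl⟩)
    · intro j
      have h1 := congrFun hc (e j)
      rw [Matrix.vecMul, dotProduct] at h1
      rw [Pi.zero_apply] at h1
      rw [map_sum, ← h1]
      apply Finset.sum_congr rfl
      intro s _
      simp only [map_smul, smul_eq_mul, map_mul, map_pow, map_prod, Matrix.of_apply,
        Equiv.symm_apply_apply, τ, AlgHom.comp_apply]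
      rfl
  · intro g
    set v : B → ((ι × Ex M D) × M) → κ := fun i p => τ p.1 (wA g i p.2) with hv
    show Submodule.span κ (Set.range v) = ⊤
    by_contra hne
    obtain ⟨f, hf0, hf⟩ := Submodule.exists_le_ker_of_lt_top _ (lt_top_iff_ne_top.2 hne)
    apply hf0
    have hfx : ∀ x : ((ι × Ex M D) × M) → κ, f x = ∑ p, f (Pi.single p 1) * x p := by
      intro x
      have h1 : x = ∑ p, x p • (Pi.single p (1 : κ) : ((ι × Ex M D) × M) → κ) := by
        funext p
        rw [Finset.sum_apply]
        simp [Pi.single_apply]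
      conv_lhs => rw [h1]
      rw [map_sum]
      apply Finset.sum_congr rfl
      intro c _
      rw [map_smul, smul_eq_mul, mul_comm]
    have h2 := hφ2 g (fun j c => f (Pi.single (e j, c) 1)) (by
      rw [Submodule.mem_bot]
      funext i
      rw [Pi.zero_apply]
      have h3 : f (v i) = 0 := hf (Submodule.subset_span ⟨i, rfl⟩)
      rw [hfx, Fintype.sum_prod_type] at h3
      rw [← h3, ← e.sum_comp]
      apply Finset.sum_congr rfl
      intro j _
      apply Finset.sum_congr rfl
      intro c _
      simp only [hv, τ, AlgHom.comp_apply, Equiv.symm_apply_apply])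
    apply LinearMap.ext
    intro x
    rw [hfx, LinearMap.zero_apply]
    apply Finset.sum_eq_zero
    intro p _
    have h4 := congrFun (congrFun h2 (e.symm p.1)) p.2
    simp only [Equiv.apply_symm_apply, Pi.zero_apply, Prod.mk.eta] at h4
    rw [h4, zero_mul]

theorem freeOver_of_evalDetV {κ C ι M : Type*} [Field κ] [Field C] [Algebra κ C] [Fintype ι]
    [Fintype M] (D : ℕ) (t : ι → C) (U : Set C) (htU : ∀ i, t i ∈ U)
    (τ : ι × Ex M D → (Algebra.adjoin κ U →ₐ[κ] κ)) (v : M → Algebra.adjoin κ U)
    (h : evalDetV D (fun j i => τ j ⟨t i, Algebra.subset_adjoin (htU i)⟩)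
      (fun p : (ι × Ex M D) × M => τ p.1 (v p.2)) ≠ 0) :
    FreeOver (Submodule.span κ (Set.range t)) D (fun c => (v c : C)) := by
  classical
  intro c hcW hc
  have h0 : ∀ j, ∃ a : ι → κ, ∑ i, a i • t i = c j := fun j =>
    (Submodule.mem_span_range_iff_exists_fun κ).1 (hcW j)
  choose a ha using h0
  unfold evalDetV at h
  have h1 : ∑ s : ι × Ex M D, a s.2 s.1 • ((∏ m, v m ^ (s.2.1 m)) *
      (⟨t s.1, Algebra.subset_adjoin (htU s.1)⟩ : Algebra.adjoin κ U)) = 0 := by
    apply Subtype.ext
    rw [ZeroMemClass.coe_zero, ← hc]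
    push_cast
    rw [Fintype.sum_prod_type_right]
    apply Finset.sum_congr rfl
    intro j _
    rw [← ha j, Finset.sum_mul]
    apply Finset.sum_congr rfl
    intro i _
    rw [smul_mul_assoc, mul_comm]
  have h2 := Matrix.eq_zero_of_vecMul_eq_zero h (v := fun s : ι × Ex M D => a s.2 s.1) (by
    funext j
    have h3 := congrArg (τ j) h1
    rw [map_sum, map_zero] at h3
    rw [Pi.zero_apply, ← h3, Matrix.vecMul, dotProduct]
    apply Finset.sum_congr rfl
    intro s _
    simp only [map_smul, map_mul, map_pow, map_prod, Matrix.of_apply, smul_eq_mul])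
  intro j
  rw [← ha j]
  apply Finset.sum_eq_zero
  intro i _
  have := congrFun h2 (i, j)
  simp only [Pi.zero_apply] at this
  rw [this, zero_smul]

/-- the widths of the sub-families of a family of vectors -/
def WideAll (κ : Type*) {C M : Type*} [Field κ] [Field C] [Algebra κ C] [Fintype M]
    (h : ℕ) {r : ℕ} (w : Fin r → M → C) : Prop :=
  ∀ (B : Finset (Fin r)), ∀ V : Submodule κ (B → κ), h < finrank κ V →
      ∀ α : M → C, (∀ T ∈ V, ∑ c, α c * ∑ i, T i • w i c = 0) → α = 0

/-- **No cube is entirely exceptional**, for a space with a given basis. -/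
theorem cube_basisV (κ C : Type*) [Field κ] [IsAlgClosed κ] [CharZero κ] [Field C] [Algebra κ C]
    (ι M : Type*) [Fintype ι] [Fintype M] (D h : ℕ) : ∀ t : ι → C,
    LinearIndependent κ t → ∀ (v₀ : M → C) (w : Fin (Fintype.card (Fin (Fintype.card (ι × Ex M D) * D)
      × Fin (Fintype.card M * Fintype.card (ι × Ex M D) + h + 1))) → M → C), WideAll κ h w →
    ∃ S : Finset (Fin (Fintype.card (Fin (Fintype.card (ι × Ex M D) * D)
      × Fin (Fintype.card M * Fintype.card (ι × Ex M D) + h + 1)))),
      FreeOver (Submodule.span κ (Set.range t)) D (fun c => v₀ c + ∑ i ∈ S, w i c) := by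
  classical
  set I := ι × Ex M D with hI
  set d := Fintype.card I * D with hd
  set b := Fintype.card M * Fintype.card I + h + 1 with hb
  intro t ht v₀ w hw
  have e : Fin (Fintype.card (Fin d × Fin b)) ≃ Fin d × Fin b := (Fintype.equivFin _).symm
  set U : Set C := Set.range t ∪ Set.range (fun p : Fin (Fintype.card (Fin d × Fin b)) × M => w p.1 p.2)
    ∪ Set.range v₀ with hU
  have hUf : U.Finite := ((Set.finite_range _).union (Set.finite_range _)).union (Set.finite_range _)
  have htU : ∀ i, t i ∈ U := fun i => Or.inl (Or.inl ⟨i, rfl⟩)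
  have hwU : ∀ k c, w k c ∈ U := fun k c => Or.inl (Or.inr ⟨(k, c), rfl⟩)
  have hvU : ∀ c, v₀ c ∈ U := fun c => Or.inr ⟨c, rfl⟩
  have hwide : ∀ g : Fin d, Wide κ h (fun (i : Fin b) => w (e.symm (g, i))) := by
    intro g V hV α hα
    set Bg : Finset (Fin (Fintype.card (Fin d × Fin b))) :=
      univ.image (fun i : Fin b => e.symm (g, i)) with hBg
    have hinj : Function.Injective (fun i : Fin b => e.symm (g, i)) := by
      intro i j hij
      exact (Prod.mk.inj (e.symm.injective hij)).2
    -- the bijection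
    let eB : Fin b ≃ Bg := Equiv.ofBijective
      (fun i => ⟨e.symm (g, i), Finset.mem_image.2 ⟨i, Finset.mem_univ _, rfl⟩⟩) (by
        constructor
        · intro i j hij
          exact hinj (congrArg Subtype.val hij)
        · rintro ⟨x, hx⟩
          obtain ⟨i, -, hi⟩ := Finset.mem_image.1 hx
          exact ⟨i, Subtype.ext hi⟩)
    let L : (Fin b → κ) ≃ₗ[κ] (Bg → κ) := LinearEquiv.funCongrLeft κ κ eB.symm
    refine hw Bg (V.map (L : (Fin b → κ) →ₗ[κ] (Bg → κ))) ?_ α ?_
    · rw [LinearEquiv.finrank_map_eq]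
      exact hV
    · intro T hT
      obtain ⟨T', hT', rfl⟩ := hT
      rw [← hα T' hT']
      apply Finset.sum_congr rfl
      intro c _
      congr 1
      rw [← eB.sum_comp]
      apply Finset.sum_congr rfl
      intro i _
      have h1 : (L : (Fin b → κ) →ₗ[κ] (Bg → κ)) T' (eB i) = T' i := by
        show T' (eB.symm (eB i)) = T' i
        rw [Equiv.symm_apply_apply]
      rw [h1]
      rfl
  obtain ⟨τ, hne, hspan⟩ := exists_evalV D h (B := Fin b) (by rw [Fintype.card_fin, hb]; exact Nat.lt_succ_self _) t ht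
    (G := Fin d) (fun g i => w (e.symm (g, i))) hwide U hUf htU (fun g i c => hwU _ _)
  set vA : M → Algebra.adjoin κ U := fun c => ⟨v₀ c, Algebra.subset_adjoin (hvU c)⟩ with hvA
  set wA : Fin (Fintype.card (Fin d × Fin b)) → M → Algebra.adjoin κ U :=
    fun k c => ⟨w k c, Algebra.subset_adjoin (hwU k c)⟩ with hwA
  obtain ⟨η, hη⟩ := cube_nonvanish d (evalDetV D (fun j i => τ j ⟨t i, Algebra.subset_adjoin (htU i)⟩))
    (evalDetV_degLE D _) (evalDetV_linePoly D _) hne
    (fun g i (p : I × M) => τ p.1 (wA (e.symm (g, i)) p.2)) hspan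
    (fun p => τ p.1 (vA p.2))
  refine ⟨univ.filter (fun k => η (e k).1 = some (e k).2), ?_⟩
  set S := univ.filter (fun k => η (e k).1 = some (e k).2) with hS
  have hcoe : (fun c => v₀ c + ∑ i ∈ S, w i c) =
      fun c => ((vA c + ∑ i ∈ S, wA i c : Algebra.adjoin κ U) : C) := by
    funext c
    push_cast
    rfl
  rw [hcoe]
  apply freeOver_of_evalDetV D t U htU τ
  convert hη using 2
  funext p
  rw [map_add, Pi.add_apply, map_sum]
  congr 1
  rw [Finset.sum_apply, hS, Finset.sum_filter]
  rw [← e.symm.sum_comp]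
  rw [Fintype.sum_prod_type]
  apply Finset.sum_congr rfl
  intro g _
  simp only [Equiv.apply_symm_apply]
  rcases hηg : η g with _ | i₀
  · simp
  · rw [Finset.sum_eq_single i₀]
    · simp
    · intro i _ hi
      rw [if_neg]
      intro h
      exact hi (Option.some.inj h).symm
    · intro h; exact absurd (mem_univ _) h

/-- the dimension of the cubes -/
noncomputable def dimV (n m D h : ℕ) : ℕ :=
  Fintype.card (Fin (Fintype.card (Fin n × Ex (Fin m) D) * D)
      × Fin (Fintype.card (Fin m) * Fintype.card (Fin n × Ex (Fin m) D) + h + 1))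

/-- **No cube is entirely exceptional**, uniformly in the space of coefficients. -/
theorem cubeV (N m D h : ℕ) : ∃ r : ℕ, ∀ (κ C : Type) [Field κ] [IsAlgClosed κ] [CharZero κ]
    [Field C] [Algebra κ C] (W : Submodule κ C), Module.Finite κ W →
    finrank κ W ≤ N → ∀ (v₀ : Fin m → C) (w : Fin r → Fin m → C), WideAll κ h w →
    ∃ S : Finset (Fin r), FreeOver W D (fun c => v₀ c + ∑ i ∈ S, w i c) := by
  classical
  set r : ℕ → ℕ := fun n => dimV n m D h with hr0
  refine ⟨∑ n ∈ Finset.range (N + 1), r n, ?_⟩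
  intro κ C _ _ _ _ _ W hWf hWN v₀ w hw
  set n := finrank κ W with hn
  have hrn : r n ≤ ∑ n ∈ Finset.range (N + 1), r n :=
    Finset.single_le_sum (f := r) (fun _ _ => Nat.zero_le _) (Finset.mem_range.2 (by omega))
  let b : Basis (Fin n) κ W := Module.finBasis κ W
  have hb : LinearIndependent κ (fun i => (b i : C)) :=
    b.linearIndependent.map' W.subtype (Submodule.ker_subtype W)
  have hspan : Submodule.span κ (Set.range (fun i => (b i : C))) = W := by
    have h1 : Set.range (fun i => (b i : C)) = W.subtype '' Set.range b := by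
      rw [← Set.range_comp]
      rfl
    rw [h1, Submodule.span_image, b.span_eq, Submodule.map_subtype_top]
  obtain ⟨S, hS⟩ := cube_basisV κ C (Fin n) (Fin m) D h (fun i => (b i : C)) hb v₀ (fun i => w (Fin.castLE hrn i)) (by
    intro B V hV α hα
    let eB : B ≃ B.map (Fin.castLEEmb hrn) := Equiv.ofBijective
      (fun i => ⟨Fin.castLE hrn i.1, Finset.mem_map.2 ⟨i.1, i.2, rfl⟩⟩) (by
        constructor
        · intro i j hij
          exact Subtype.ext (Fin.castLE_injective hrn (congrArg Subtype.val hij))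
        · rintro ⟨x, hx⟩
          obtain ⟨i, hi, hi'⟩ := Finset.mem_map.1 hx
          exact ⟨⟨i, hi⟩, Subtype.ext hi'⟩)
    let L : (B → κ) ≃ₗ[κ] (B.map (Fin.castLEEmb hrn) → κ) := LinearEquiv.funCongrLeft κ κ eB.symm
    refine hw (B.map (Fin.castLEEmb hrn)) (V.map (L : (B → κ) →ₗ[κ] _)) ?_ α ?_
    · rw [LinearEquiv.finrank_map_eq]
      exact hV
    · intro T hT
      obtain ⟨T', hT', rfl⟩ := hT
      rw [← hα T' hT']
      apply Finset.sum_congr rfl
      intro c _
      congr 1
      rw [← eB.sum_comp]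
      apply Finset.sum_congr rfl
      intro i _
      have h1 : (L : (B → κ) →ₗ[κ] (B.map (Fin.castLEEmb hrn) → κ)) T' (eB i) = T' i := by
        show T' (eB.symm (eB i)) = T' i
        rw [Equiv.symm_apply_apply]
      rw [h1]
      rfl)
  refine ⟨S.map (Fin.castLEEmb hrn), ?_⟩
  rw [hspan] at hS
  simp only [Finset.sum_map]
  exact hS

end Pool.Agent.H443.VF
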