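import Mathlib
import Pool.Agent.H443.VF.Cube

/-!
# Freeness over a space of coefficients: formal properties
-/

set_option autoImplicit false

namespace Pool.Agent.H443.VF

open Finset Module
open Pool.Agent.H297R2 (Ex)

section

variable {κ C : Type*} [Field κ] [Field C] [Algebra κ C]

theorem FreeOver.comp {M M' : Type*} [Fintype M] [Fintype M'] {W : Submodule κ C} {D : ℕ}
    {x : M → C} (h : FreeOver W D x) (f : M' → M) (hf : Function.Injective f) :
    FreeOver W D (x ∘ f) := by
  classical
  rw [freeOver_iff] at h ⊢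
  intro P hP hW hx
  have h1 := h (MvPolynomial.rename f P) ((MvPolynomial.totalDegree_rename_le f P).trans hP) (by
    intro s
    by_cases hs : ∃ u : M' →₀ ℕ, u.mapDomain f = s ∧ P.coeff u ≠ 0
    · obtain ⟨u, hu, -⟩ := hs
      rw [← hu, MvPolynomial.coeff_rename_mapDomain f hf]
      exact hW u
    · push Not at hs
      rw [MvPolynomial.coeff_rename_eq_zero f P s hs]
      exact W.zero_mem) (by
    rw [MvPolynomial.eval_rename]
    exact hx)
  exact MvPolynomial.rename_injective f hf (by rw [h1, map_zero])

theorem FreeOver.of_equiv {M M' : Type*} [Fintype M] [Fintype M'] {W : Submodule κ C} {D : ℕ}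
    {x : M → C} (e : M' ≃ M) (h : FreeOver W D (x ∘ e)) : FreeOver W D x := by
  have := h.comp e.symm e.symm.injective
  have h1 : (x ∘ e) ∘ e.symm = x := by funext z; simp
  rwa [h1] at this

theorem freeOver_congr {M M' : Type*} [Fintype M] [Fintype M'] {W : Submodule κ C} {D : ℕ}
    {x : M → C} (e : M' ≃ M) : FreeOver W D (x ∘ e) ↔ FreeOver W D x :=
  ⟨fun h => h.of_equiv e, fun h => h.comp e e.injective⟩

theorem FreeOver.of_isEmpty {M : Type*} [Fintype M] [IsEmpty M] (W : Submodule κ C) (D : ℕ)
    (x : M → C) : FreeOver W D x := by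
  classical
  intro c _ h s
  have hs : ∀ s' : Ex M D, s' = s := fun s' => Subtype.ext (Subsingleton.elim _ _)
  rw [Fintype.sum_eq_single s (fun s' h' => absurd (hs s') h')] at h
  simpa using h

/-- the products of the elements of `W` and of the monomials of degree at most `D` in the `x m` -/
noncomputable def mulExt {M : Type*} [Fintype M] (W : Submodule κ C) (D : ℕ) (x : M → C) :
    Submodule κ C :=
  ⨆ s : Ex M D, W.map (LinearMap.mulRight κ (∏ m, x m ^ (s.1 m)))

theorem mem_mulExt {M : Type*} [Fintype M] {W : Submodule κ C} {D : ℕ} {x : M → C} {z : C}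
    (hz : z ∈ W) (s : Ex M D) : z * ∏ m, x m ^ (s.1 m) ∈ mulExt W D x :=
  Submodule.mem_iSup_of_mem s ⟨z, hz, rfl⟩

theorem le_mulExt {M : Type*} [Fintype M] (W : Submodule κ C) (D : ℕ) (x : M → C) :
    W ≤ mulExt W D x := by
  intro z hz
  have h := mem_mulExt (D := D) (x := x) hz (⟨0, by simp⟩ : Ex M D)
  simpa using h

theorem mulExt_finite {M : Type*} [Fintype M] (W : Submodule κ C) [Module.Finite κ W] (D : ℕ)
    (x : M → C) : Module.Finite κ (mulExt W D x) := by
  unfold mulExt
  infer_instance

theorem finrank_iSup_le {ι : Type*} [Fintype ι] (V : ι → Submodule κ C)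
    [∀ i, Module.Finite κ (V i)] (n : ℕ) (h : ∀ i, finrank κ (V i) ≤ n) :
    finrank κ (⨆ i, V i : Submodule κ C) ≤ Fintype.card ι * n := by
  classical
  have key : ∀ s : Finset ι, Module.Finite κ (s.sup V : Submodule κ C) ∧
      finrank κ (s.sup V : Submodule κ C) ≤ s.card * n := by
    intro s
    induction s using Finset.induction_on with
    | empty =>
      rw [Finset.sup_empty, Finset.card_empty, zero_mul, finrank_bot]
      exact ⟨inferInstance, le_rfl⟩
    | insert a s ha ih =>
      obtain ⟨h1, h2⟩ := ih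
      rw [Finset.sup_insert, Finset.card_insert_of_notMem ha]
      refine ⟨inferInstance, (Submodule.finrank_add_le_finrank_add_finrank _ _).trans ?_⟩
      have := h a
      rw [add_mul, one_mul]
      omega
  have h1 := (key univ).2
  rw [Finset.sup_univ_eq_iSup, Finset.card_univ] at h1
  exact h1

theorem finrank_mulExt_le {M : Type*} [Fintype M] (W : Submodule κ C) [Module.Finite κ W] (D : ℕ)
    (x : M → C) : finrank κ (mulExt W D x) ≤ Fintype.card (Ex M D) * finrank κ W := by
  unfold mulExt
  exact finrank_iSup_le _ _ fun s => Submodule.finrank_map_le _ _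

theorem card_Ex (M : Type*) [Fintype M] (m D : ℕ) (hM : Fintype.card M = m) :
    Fintype.card (Ex M D) = Fintype.card (Ex (Fin m) D) := by
  classical
  have e : M ≃ Fin m := Fintype.equivFinOfCardEq hM
  refine Fintype.card_congr (Equiv.subtypeEquiv (Finsupp.domCongr (M := ℕ) e).toEquiv fun s => ?_)
  have h1 : ((Finsupp.domCongr (M := ℕ) e).toEquiv s).degree = s.degree := by
    rw [Finsupp.degree_eq_sum, Finsupp.degree_eq_sum, ← e.sum_comp]
    refine Finset.sum_congr rfl fun i _ => ?_
    show (Finsupp.equivMapDomain e s) (e i) = s i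
    rw [Finsupp.equivMapDomain_apply, Equiv.symm_apply_apply]
  rw [h1]

/-- **Freeness in several steps.** -/
theorem FreeOver.sum {M M' : Type*} [Fintype M] [Fintype M'] {W : Submodule κ C} {D : ℕ}
    {x : M → C} {y : M' → C} (hx : FreeOver W D x) (hy : FreeOver (mulExt W D x) D y) :
    FreeOver W D (Sum.elim x y) := by
  classical
  intro c hc h0 s₀
  have hdl : ∀ s : Ex (M ⊕ M') D,
      (Finsupp.equivFunOnFinite.symm (fun i => s.1 (Sum.inl i)) : M →₀ ℕ).degree ≤ D := by
    intro s
    refine le_trans ?_ s.2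
    rw [Finsupp.degree_eq_sum, Finsupp.degree_eq_sum, Fintype.sum_sum_type]
    simp only [Finsupp.equivFunOnFinite_symm_apply_apply]
    omega
  have hdr : ∀ s : Ex (M ⊕ M') D,
      (Finsupp.equivFunOnFinite.symm (fun i => s.1 (Sum.inr i)) : M' →₀ ℕ).degree ≤ D := by
    intro s
    refine le_trans ?_ s.2
    rw [Finsupp.degree_eq_sum, Finsupp.degree_eq_sum, Fintype.sum_sum_type]
    simp only [Finsupp.equivFunOnFinite_symm_apply_apply]
    omega
  set L : Ex (M ⊕ M') D → Ex M D := fun s => ⟨_, hdl s⟩ with hL
  set R : Ex (M ⊕ M') D → Ex M' D := fun s => ⟨_, hdr s⟩ with hR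
  have hLe : ∀ s i, (L s).1 i = s.1 (Sum.inl i) := fun s i => rfl
  have hRe : ∀ s i, (R s).1 i = s.1 (Sum.inr i) := fun s i => rfl
  have hinj : ∀ s s', L s = L s' → R s = R s' → s = s' := by
    intro s s' h1 h2
    apply Subtype.ext
    ext z
    rcases z with i | i
    · rw [← hLe, ← hLe, h1]
    · rw [← hRe, ← hRe, h2]
  -- the coefficients of the monomials in `y`
  set b : Ex M' D → C := fun t => ∑ s ∈ univ.filter (fun s => R s = t), c s * ∏ m, x m ^ ((L s).1 m)
    with hb
  have h1 : ∑ t, b t * ∏ m, y m ^ (t.1 m) = 0 := by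
    rw [← h0, ← Finset.sum_fiberwise univ R]
    refine Finset.sum_congr rfl fun t _ => ?_
    simp only [hb]
    rw [Finset.sum_mul]
    refine Finset.sum_congr rfl fun s hs => ?_
    rw [Finset.mem_filter] at hs
    rw [Fintype.prod_sum_type, ← hs.2]
    simp only [Sum.elim_inl, Sum.elim_inr, hLe, hRe]
    ring
  have h2 := hy b (fun t => Submodule.sum_mem _ fun s _ => mem_mulExt (hc s) (L s)) h1
  have h3 : ∑ u : Ex M D, (∑ s ∈ univ.filter (fun s => R s = R s₀ ∧ L s = u), c s) *
      ∏ m, x m ^ (u.1 m) = 0 := by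
    rw [← h2 (R s₀)]
    simp only [hb]
    rw [← Finset.sum_fiberwise (univ.filter fun s => R s = R s₀) L]
    refine Finset.sum_congr rfl fun u _ => ?_
    rw [Finset.sum_mul, Finset.filter_filter]
    refine Finset.sum_congr rfl fun s hs => ?_
    rw [Finset.mem_filter] at hs
    rw [hs.2.2]
  have h4 := hx _ (fun u => Submodule.sum_mem _ fun s _ => hc s) h3 (L s₀)
  rw [Finset.sum_eq_single s₀] at h4
  · exact h4
  · intro s hs hne
    rw [Finset.mem_filter] at hs
    exact absurd (hinj s s₀ hs.2.2 hs.2.1) hne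
  · intro h
    exact absurd (Finset.mem_filter.2 ⟨Finset.mem_univ _, rfl, rfl⟩) h

theorem finrank_mul_le (V W : Submodule κ C) [Module.Finite κ V] [Module.Finite κ W] :
    Module.Finite κ (V * W : Submodule κ C) ∧
      finrank κ (V * W : Submodule κ C) ≤ finrank κ V * finrank κ W := by
  rw [← Submodule.mulMap_range]
  constructor
  · infer_instance
  · refine (LinearMap.finrank_range_le _).trans ?_
    rw [Module.finrank_tensorProduct]

theorem finrank_pow_le (E : Submodule κ C) [Module.Finite κ E] (m : ℕ) (hm : finrank κ E ≤ m)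
    (k : ℕ) : Module.Finite κ (E ^ k : Submodule κ C) ∧ finrank κ (E ^ k : Submodule κ C) ≤ m ^ k := by
  induction k with
  | zero =>
    rw [pow_zero, Submodule.one_eq_range]
    constructor
    · infer_instance
    · refine (LinearMap.finrank_range_le _).trans ?_
      simp
  | succ k ih =>
    obtain ⟨h1, h2⟩ := ih
    rw [pow_succ]
    obtain ⟨h3, h4⟩ := finrank_mul_le (E ^ k) E
    exact ⟨h3, h4.trans (by rw [pow_succ]; exact Nat.mul_le_mul h2 hm)⟩

/-- all the coefficients of a polynomial lie in the `k`-th power of `E` -/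
def CoeffIn {M : Type*} (E : Submodule κ C) (k : ℕ) (f : MvPolynomial M C) : Prop :=
  ∀ s, f.coeff s ∈ E ^ k

theorem CoeffIn.mul {M : Type*} {E : Submodule κ C} {k l : ℕ} {f g : MvPolynomial M C}
    (hf : CoeffIn E k f) (hg : CoeffIn E l g) : CoeffIn E (k + l) (f * g) := by
  classical
  intro s
  rw [MvPolynomial.coeff_mul, pow_add]
  exact Submodule.sum_mem _ fun p _ => Submodule.mul_mem_mul (hf _) (hg _)

theorem CoeffIn.one {M : Type*} (E : Submodule κ C) : CoeffIn E 0 (1 : MvPolynomial M C) := by
  classical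
  intro j
  rw [pow_zero, MvPolynomial.coeff_one]
  split_ifs
  · exact Submodule.one_le.1 le_rfl
  · exact Submodule.zero_mem _

theorem CoeffIn.pow {M : Type*} {E : Submodule κ C} {f : MvPolynomial M C}
    (hf : CoeffIn E 1 f) (n : ℕ) : CoeffIn E n (f ^ n) := by
  induction n with
  | zero => rw [pow_zero]; exact CoeffIn.one E
  | succ n ih => rw [pow_succ]; exact ih.mul hf

theorem CoeffIn.prod {M ι : Type*} {E : Submodule κ C} (s : Finset ι) (k : ι → ℕ)
    (f : ι → MvPolynomial M C) (hf : ∀ i ∈ s, CoeffIn E (k i) (f i)) :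
    CoeffIn E (∑ i ∈ s, k i) (∏ i ∈ s, f i) := by
  classical
  induction s using Finset.induction_on with
  | empty => rw [Finset.sum_empty, Finset.prod_empty]; exact CoeffIn.one E
  | insert a s ha ih =>
    rw [Finset.sum_insert ha, Finset.prod_insert ha]
    exact (hf a (Finset.mem_insert_self _ _)).mul (ih fun i hi => hf i (Finset.mem_insert_of_mem hi))

theorem CoeffIn.mono {M : Type*} {E : Submodule κ C} (hE : (1 : C) ∈ E) {k l : ℕ} (hkl : k ≤ l)
    {f : MvPolynomial M C} (hf : CoeffIn E k f) : CoeffIn E l f :=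
  fun j => pow_le_pow_right' (Submodule.one_le.2 hE) hkl (hf j)

/-- **Shifts.** -/
theorem FreeOver.shift {M : Type*} [Fintype M] {W E : Submodule κ C} {D : ℕ} {x a : M → C}
    (h1 : (1 : C) ∈ E) (ha : ∀ m, a m ∈ E) (h : FreeOver (W * E ^ D) D x) :
    FreeOver W D (fun m => x m + a m) := by
  classical
  rw [freeOver_iff] at h ⊢
  intro P hP hW hx
  set Q : MvPolynomial M C := MvPolynomial.aeval
    (fun m => (MvPolynomial.X m + MvPolynomial.C (a m) : MvPolynomial M C)) P with hQ
  have hQs : Q = ∑ s ∈ P.support, MvPolynomial.C (P.coeff s) *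
      ∏ m, (MvPolynomial.X m + MvPolynomial.C (a m) : MvPolynomial M C) ^ (s m) := by
    rw [hQ]
    conv_lhs => rw [P.as_sum, map_sum]
    refine Finset.sum_congr rfl fun s _ => ?_
    rw [MvPolynomial.aeval_monomial, Finsupp.prod_fintype _ _ (by simp)]
    rfl
  have hdeg : ∀ s ∈ P.support, ∑ m, s m ≤ D := by
    intro s hs
    have h2 := (MvPolynomial.le_totalDegree hs).trans hP
    rwa [Finsupp.sum_fintype _ _ (fun _ => rfl)] at h2
  have hQ0 : Q = 0 := by
    apply h
    · rw [hQs]
      refine MvPolynomial.totalDegree_finsetSum_le fun s hs => ?_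
      refine (MvPolynomial.totalDegree_mul _ _).trans ?_
      rw [MvPolynomial.totalDegree_C, zero_add]
      refine (MvPolynomial.totalDegree_finsetProd _ _).trans ?_
      refine le_trans (Finset.sum_le_sum fun m _ => ?_) (hdeg s hs)
      refine (MvPolynomial.totalDegree_pow _ _).trans ?_
      refine (Nat.mul_le_mul_left _ ?_).trans (le_of_eq (mul_one _))
      refine (MvPolynomial.totalDegree_add _ _).trans ?_
      rw [MvPolynomial.totalDegree_C]
      exact max_le ((MvPolynomial.totalDegree_X m).le) (Nat.zero_le _)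
    · intro t
      rw [hQs, MvPolynomial.coeff_sum]
      refine Submodule.sum_mem _ fun s hs => ?_
      rw [MvPolynomial.coeff_C_mul]
      refine Submodule.mul_mem_mul (hW s) ?_
      refine (CoeffIn.mono h1 (hdeg s hs) (CoeffIn.prod univ (fun m => s m) _ fun m _ => ?_)) t
      refine CoeffIn.pow (fun u => ?_) (s m)
      rw [pow_one, MvPolynomial.coeff_add, MvPolynomial.coeff_X, MvPolynomial.coeff_C]
      refine E.add_mem ?_ ?_
      · split_ifs
        · exact h1
        · exact E.zero_mem
      · split_ifs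
        · exact ha m
        · exact E.zero_mem
    · have ev : ∀ (y : M → C) (p : MvPolynomial M C), MvPolynomial.eval y p =
        MvPolynomial.aeval y p := fun y p => rfl
      rw [← hx, hQ, ev, ev]
      have h3 := MvPolynomial.comp_aeval_apply (f := fun m => (MvPolynomial.X m +
          MvPolynomial.C (a m) : MvPolynomial M C)) (MvPolynomial.aeval x : MvPolynomial M C →ₐ[C] C) P
      rw [h3]
      congr 2
      funext m
      simp
  have h2 : MvPolynomial.aeval
      (fun m => (MvPolynomial.X m - MvPolynomial.C (a m) : MvPolynomial M C)) Q = P := by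
    rw [hQ]
    have h3 : (MvPolynomial.aeval
        (fun m => (MvPolynomial.X m - MvPolynomial.C (a m) : MvPolynomial M C))).comp
        (MvPolynomial.aeval
        (fun m => (MvPolynomial.X m + MvPolynomial.C (a m) : MvPolynomial M C))) =
        AlgHom.id C (MvPolynomial M C) := by
      apply MvPolynomial.algHom_ext
      intro m
      simp
    exact DFunLike.congr_fun h3 P
  rw [← h2, hQ0, map_zero]

/-- elements which satisfy no relation are not in the space -/
theorem FreeOver.linear {M : Type*} [Fintype M] {W : Submodule κ C} {D : ℕ} (hD : 1 ≤ D) {x : M → C}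
    (h : FreeOver W D x) (w : C) (hw : w ∈ W) (g : M → C) (hg : ∀ m, g m ∈ W)
    (h0 : w + ∑ m, g m * x m = 0) : w = 0 ∧ ∀ m, g m = 0 := by
  classical
  rw [freeOver_iff] at h
  have h1 := h (MvPolynomial.C w + ∑ m, MvPolynomial.C (g m) * MvPolynomial.X m) (by
    refine (MvPolynomial.totalDegree_add _ _).trans (max_le ?_ ?_)
    · rw [MvPolynomial.totalDegree_C]; exact Nat.zero_le _
    · refine MvPolynomial.totalDegree_finsetSum_le fun m _ => ?_
      refine (MvPolynomial.totalDegree_mul _ _).trans ?_
      rw [MvPolynomial.totalDegree_C, zero_add]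
      exact (MvPolynomial.totalDegree_X m).le.trans hD) (by
    intro s
    rw [MvPolynomial.coeff_add, MvPolynomial.coeff_C, MvPolynomial.coeff_sum]
    refine W.add_mem ?_ (W.sum_mem fun m _ => ?_)
    · split_ifs
      · exact hw
      · exact W.zero_mem
    · rw [MvPolynomial.coeff_C_mul, MvPolynomial.coeff_X]
      split_ifs
      · rw [mul_one]; exact hg m
      · rw [mul_zero]; exact W.zero_mem) (by
    rw [← h0, map_add, map_sum]
    simp)
  have h2 : ∀ m, g m = 0 := by
    intro m
    have h3 := congrArg (MvPolynomial.coeff (Finsupp.single m 1)) h1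
    rw [MvPolynomial.coeff_add, MvPolynomial.coeff_C, MvPolynomial.coeff_sum, if_neg (by
      intro h4
      have := DFunLike.congr_fun h4 m
      simp at this), zero_add, Finset.sum_eq_single m] at h3
    · simpa using h3
    · intro m' _ hm'
      rw [MvPolynomial.coeff_C_mul, MvPolynomial.coeff_X, if_neg, mul_zero]
      intro h4
      exact hm' (Finsupp.single_left_injective one_ne_zero h4)
    · intro h4
      exact absurd (Finset.mem_univ _) h4
  refine ⟨?_, h2⟩
  simpa [h2] using h0

end

end Pool.Agent.H443.VF
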