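import Mathlib
import Pool.Agent.H443.NF.Gen

/-!
# The conjugates of ratios of generators are multiplicatively independent, in an arbitrary field
-/

set_option autoImplicit false

namespace Pool.Agent.H443.VF

open NumberField IsDedekindDomain Finset
open Pool.Agent.H443.NF (chr chr_prime chr_mem Rto Gto deg_one)

variable (K : Type) [Field K] [NumberField K]

omit [NumberField K] in
theorem exists_V {C : Type} [Field C] (τ : K →+* C) (v : HeightOneSpectrum (𝓞 K)) :
    ∃ B : ValuationSubring C, (∀ a ∈ v.asIdeal, B.valuation (τ (a : K)) < 1) ∧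
      (∀ z : C, IsIntegral ℤ z → B.valuation z ≤ 1) := by
  set f : 𝓞 K →+* C := τ.comp (algebraMap (𝓞 K) K) with hf
  have hfi : Function.Injective f := τ.injective.comp (RingOfIntegers.coe_injective)
  set I : Ideal f.range := v.asIdeal.map f.rangeRestrict with hI
  have hbij : Function.Bijective f.rangeRestrict := by
    refine ⟨?_, f.rangeRestrict_surjective⟩
    intro a b h
    exact hfi (congrArg Subtype.val h)
  have hItop : I ≠ ⊤ := by
    intro h
    have h1 := Ideal.comap_map_of_bijective f.rangeRestrict hbij (I := v.asIdeal)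
    rw [← hI, h, Ideal.comap_top] at h1
    exact v.isPrime.ne_top h1.symm
  obtain ⟨B, hB1, hB2⟩ := Ideal.image_subset_nonunits_valuationSubring I hItop
  refine ⟨B, ?_, ?_⟩
  · intro a ha
    have h1 : τ (a : K) ∈ B.nonunits := by
      apply hB2
      exact ⟨f.rangeRestrict a, Ideal.mem_map_of_mem _ ha, rfl⟩
    exact (ValuationSubring.mem_nonunits_iff B).1 h1
  · intro z hz
    have h1 : IsIntegral B.valuation.integer z := hz.tower_top
    have h2 := (Valuation.integer.integers B.valuation).mem_of_integral h1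
    exact h2

theorem V_int {C : Type} [Field C] (B : ValuationSubring C) (n : ℤ) : B.valuation (n : C) ≤ 1 := by
  rw [ValuationSubring.valuation_le_one_iff]
  exact intCast_mem B n

theorem V_coprime {C : Type} [Field C] (B : ValuationSubring C) (q : ℕ)
    (hq : B.valuation (q : C) < 1) (n : ℤ) (hn : IsCoprime n (q : ℤ)) : B.valuation (n : C) = 1 := by
  refine le_antisymm (V_int B n) ?_
  by_contra h
  push Not at h
  obtain ⟨a, b, hab⟩ := hn
  have h1 : ((a : C) * (n : C) + (b : C) * (q : C)) = 1 := by exact_mod_cast congrArg (Int.cast : ℤ → C) hab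
  have h2 : B.valuation ((a : C) * (n : C) + (b : C) * (q : C)) < 1 := by
    apply B.valuation.map_add_lt
    · rw [map_mul]
      calc B.valuation (a : C) * B.valuation (n : C) ≤ 1 * B.valuation (n : C) :=
            mul_le_mul_left (V_int B a) _
        _ < 1 := by rwa [one_mul]
    · rw [map_mul]
      calc B.valuation (b : C) * B.valuation (q : C) ≤ 1 * B.valuation (q : C) :=
            mul_le_mul_left (V_int B b) _
        _ < 1 := by rwa [one_mul]
  rw [h1, map_one] at h2
  exact lt_irrefl _ h2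

/-- uniform separation of the conjugates -/
theorem exists_sep : ∃ Y : ℕ, ∀ (C : Type) [Field C] [CharZero C] (σ τ : K →+* C), σ ≠ τ →
    ∃ (θ : 𝓞 K) (N : ℤ) (z : C),
    N ≠ 0 ∧ N.natAbs ≤ Y ∧ IsIntegral ℤ z ∧ (N : C) = z * (σ (θ : K) - τ (θ : K)) := by
  obtain ⟨Y, hY⟩ := Pool.Agent.H443.NF.exists_sep K
  refine ⟨Y, fun C _ _ σ τ hst => ?_⟩
  set A := algebraicClosure ℚ C with hA
  have hAa : Algebra.IsAlgebraic ℚ A := algebraicClosure.isAlgebraic ℚ C
  let ψ : A →ₐ[ℚ] ℂ := IsAlgClosed.lift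
  have hψ : Function.Injective ψ := ψ.toRingHom.injective
  have hmem : ∀ (ρ : K →+* C) (x : K), ρ.toRatAlgHom x ∈ A.toSubalgebra := by
    intro ρ x
    show ρ.toRatAlgHom x ∈ A
    rw [hA, mem_algebraicClosure_iff]
    exact (Algebra.IsAlgebraic.isAlgebraic x).algHom ρ.toRatAlgHom
  let r : (K →+* C) → (K →ₐ[ℚ] A) := fun ρ => (ρ.toRatAlgHom).codRestrict A.toSubalgebra (hmem ρ)
  have hr : ∀ (ρ : K →+* C) (x : K), ((r ρ x : A) : C) = ρ x := fun ρ x => rfl
  set σ' : K →+* ℂ := (ψ.comp (r σ)).toRingHom with hσ'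
  set τ' : K →+* ℂ := (ψ.comp (r τ)).toRingHom with hτ'
  have hσa : ∀ x, σ' x = ψ (r σ x) := fun x => rfl
  have hτa : ∀ x, τ' x = ψ (r τ x) := fun x => rfl
  have hne : σ' ≠ τ' := by
    intro h
    apply hst
    ext x
    rw [← hr, ← hr]
    congr 1
    apply hψ
    rw [← hσa, ← hτa, h]
  obtain ⟨θ, N, z, hN0, hNY, hz, hNz⟩ := hY σ' τ' hne
  have hNC : (N : ℂ) ≠ 0 := by exact_mod_cast hN0
  have hd0 : σ' (θ : K) - τ' (θ : K) ≠ 0 := by
    intro h
    rw [h, mul_zero] at hNz
    exact hNC hNz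
  have hd : (r σ (θ : K) : A) - r τ (θ : K) ≠ 0 := by
    intro h
    apply hd0
    rw [hσa, hτa, ← map_sub, h, map_zero]
  set z' : A := (N : A) / (r σ (θ : K) - r τ (θ : K)) with hz'
  have h1 : ψ z' = z := by
    rw [hz', map_div₀, map_sub, ← hσa, ← hτa, map_intCast, hNz]
    field_simp
  have h2 : IsIntegral ℤ z' := by
    rw [← isIntegral_algHom_iff (ψ.toRingHom.toIntAlgHom) hψ]
    show IsIntegral ℤ (ψ z')
    rw [h1]
    exact hz
  refine ⟨θ, N, (z' : C), hN0, hNY, ?_, ?_⟩
  · exact h2.map (A.val.toRingHom.toIntAlgHom)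
  · have h3 : (N : A) = z' * (r σ (θ : K) - r τ (θ : K)) := by
      rw [hz']
      field_simp
    have h4 := congrArg (fun y : A => (y : C)) h3
    push_cast at h4
    rw [hr, hr] at h4
    exact h4

variable {K}

omit [NumberField K] in
theorem V_le {C : Type} [Field C] {v w : HeightOneSpectrum (𝓞 K)} {ξ : K} (h : Rto K v w ξ)
    (σ : K →+* C) (B : ValuationSubring C) (hB : ∀ z : C, IsIntegral ℤ z → B.valuation z ≤ 1)
    (β : 𝓞 K) (hβ : β ∈ v.asIdeal) (hβ1 : B.valuation (σ (β : K)) = 1) :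
    B.valuation (σ ξ) ≤ 1 := by
  obtain ⟨α, _, h1⟩ := h.2.1 β hβ
  have h2 := congrArg (fun x => B.valuation (σ x)) h1
  simp only [map_mul] at h2
  rw [hβ1, mul_one] at h2
  rw [← h2]
  exact hB _ (map_isIntegral_int σ α.2)

omit [NumberField K] in
theorem V_ge {C : Type} [Field C] {v w : HeightOneSpectrum (𝓞 K)} {ξ : K} (h : Rto K v w ξ)
    (σ : K →+* C) (B : ValuationSubring C) (hB : ∀ z : C, IsIntegral ℤ z → B.valuation z ≤ 1)
    (α : 𝓞 K) (hα : α ∈ w.asIdeal) (hα1 : B.valuation (σ (α : K)) = 1) :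
    1 ≤ B.valuation (σ ξ) := by
  obtain ⟨β, _, h1⟩ := h.2.2 α hα
  have h2 := congrArg (fun x => B.valuation (σ x)) h1
  simp only [map_mul] at h2
  rw [hα1] at h2
  rw [h2]
  calc B.valuation (σ ξ) * B.valuation (σ (β : K)) ≤ B.valuation (σ ξ) * 1 :=
        mul_le_mul_right (hB _ (map_isIntegral_int σ β.2)) _
    _ = B.valuation (σ ξ) := mul_one _

variable (K)

/-- **Independence.** -/
theorem mult_indep : ∃ Y : ℕ, ∀ (C : Type) [Field C] [CharZero C] (r : ℕ)
    (v w : Fin r → HeightOneSpectrum (𝓞 K)) (ξ : Fin r → K),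
    (∀ i, Rto K (v i) (w i) (ξ i)) → (∀ i, Ideal.absNorm (w i).asIdeal = chr K (w i)) →
    (∀ i, Y < chr K (w i)) → (∀ i j, chr K (v i) ≠ chr K (w j)) →
    (∀ i j, i ≠ j → chr K (w i) ≠ chr K (w j)) → ∀ q : ℕ, (∀ i, Nat.Coprime (chr K (w i)) q) →
    ∀ (g : Fin r × (K →+* C) → ℤ) (e : ℤ), ∏ z, (z.2 (ξ z.1)) ^ (g z) = (q : C) ^ e → g = 0 := by
  classical
  obtain ⟨Y, hY⟩ := exists_sep K
  refine ⟨Y, ?_⟩
  intro C _ _ r v w ξ hξ hdeg hbig hvw hww q' hq' g e hg
  funext z₀
  obtain ⟨i₀, τ⟩ := z₀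
  rw [Pi.zero_apply]
  obtain ⟨B, hB1, hB2⟩ := exists_V K τ (w i₀)
  set q := chr K (w i₀) with hq
  have hqp : q.Prime := chr_prime K (w i₀)
  have hVq : B.valuation (q : C) < 1 := by
    have h1 := hB1 _ (chr_mem K (w i₀))
    simpa using h1
  have hVp : ∀ p : ℕ, p.Prime → p ≠ q → B.valuation (p : C) = 1 := by
    intro p hp hpq
    have h1 := V_coprime B q hVq (p : ℤ) (by
      rw [Nat.isCoprime_iff_coprime]
      exact (Nat.coprime_primes hp hqp).2 hpq)
    simpa using h1
  have hVq' : B.valuation (q' : C) = 1 := by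
    have h1 := V_coprime B q hVq (q' : ℤ) (by
      rw [Nat.isCoprime_iff_coprime]
      exact (hq' i₀).symm)
    simpa using h1
  have hone : ∀ z : Fin r × (K →+* C), z ≠ (i₀, τ) → B.valuation (z.2 (ξ z.1)) = 1 := by
    rintro ⟨i, σ⟩ hne
    apply le_antisymm
    · refine V_le (hξ i) σ B hB2 (chr K (v i) : 𝓞 K) (chr_mem K (v i)) ?_
      have h1 := hVp (chr K (v i)) (chr_prime K _) (hvw i i₀)
      simpa using h1
    · by_cases hi : i = i₀
      · subst hi
        have hst : τ ≠ σ := fun h => hne (by rw [h])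
        obtain ⟨θ, N, z, hN0, hNY, hz, hNz⟩ := hY C τ σ hst
        obtain ⟨c, hc⟩ := deg_one K (w i) (by rw [hdeg i]; exact hqp) θ
        refine V_ge (hξ i) σ B hB2 (θ - c) hc ?_
        refine le_antisymm (hB2 _ (map_isIntegral_int σ (θ - c : 𝓞 K).2)) ?_
        by_contra hlt
        push Not at hlt
        have h1 := hB1 _ hc
        have h2 : τ (θ : K) - σ (θ : K) = τ ((θ - c : 𝓞 K) : K) - σ ((θ - c : 𝓞 K) : K) := by
          simp
        have h3 : B.valuation (τ (θ : K) - σ (θ : K)) < 1 := by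
          rw [h2]
          exact B.valuation.map_sub_lt h1 hlt
        have h4 : B.valuation (N : C) < 1 := by
          rw [hNz, map_mul]
          calc B.valuation z * B.valuation (τ (θ : K) - σ (θ : K))
              ≤ 1 * B.valuation (τ (θ : K) - σ (θ : K)) := mul_le_mul_left (hB2 _ hz) _
            _ < 1 := by rwa [one_mul]
        have h5 : B.valuation (N : C) = 1 := by
          apply V_coprime B q hVq
          rw [Int.isCoprime_iff_gcd_eq_one, Int.gcd, Int.natAbs_natCast]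
          rw [← Nat.Coprime, Nat.coprime_comm]
          refine (Nat.Prime.coprime_iff_not_dvd hqp).2 ?_
          intro hdvd
          have h6 := Nat.le_of_dvd (Int.natAbs_pos.2 hN0) hdvd
          have h7 := hbig i
          omega
        rw [h5] at h4
        exact lt_irrefl _ h4
      · refine V_ge (hξ i) σ B hB2 (chr K (w i) : 𝓞 K) (chr_mem K (w i)) ?_
        have h1 := hVp (chr K (w i)) (chr_prime K _) (hww i i₀ hi)
        simpa using h1
  have hlt : B.valuation (τ (ξ i₀)) < 1 := by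
    obtain ⟨α, hα, h1⟩ := (hξ i₀).2.1 (chr K (v i₀) : 𝓞 K) (chr_mem K (v i₀))
    have h2 := hVp (chr K (v i₀)) (chr_prime K _) (hvw i₀ i₀)
    have h3 := congrArg (fun x => B.valuation (τ x)) h1
    simp only [map_mul] at h3
    have h4 : B.valuation (τ (((chr K (v i₀) : ℕ) : 𝓞 K) : K)) = 1 := by simpa using h2
    rw [h4, mul_one] at h3
    rw [← h3]
    exact hB1 _ hα
  have h2 := congrArg B.valuation hg
  rw [map_prod, map_zpow₀, hVq', one_zpow] at h2
  rw [Finset.prod_eq_single (i₀, τ)] at h2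
  · rw [map_zpow₀] at h2
    by_contra hg0
    have h3 : (0 : B.ValueGroup) < B.valuation (τ (ξ i₀)) := by
      rw [zero_lt_iff, Ne, B.valuation.zero_iff]
      intro h
      exact (hξ i₀).1 ((map_eq_zero τ).1 h)
    rcases lt_trichotomy (g (i₀, τ)) 0 with h | h | h
    · have h4 : 1 < B.valuation (τ (ξ i₀)) ^ (g (i₀, τ)) := one_lt_zpow_of_neg₀ h3 hlt h
      exact absurd h2 h4.ne'
    · exact hg0 h
    · have h4 : B.valuation (τ (ξ i₀)) ^ (g (i₀, τ)) < 1 := zpow_lt_one₀ h3 hlt h
      exact absurd h2 h4.ne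
  · intro z _ hz
    rw [map_zpow₀, hone z hz, one_zpow]
  · intro h
    exact absurd (Finset.mem_univ _) h

end Pool.Agent.H443.VF
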