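import Mathlib
import Pool.Agent.H443.VF.Cube
import Pool.Graph.R_seed8.W254.PA.Transfer

/-!
# Independent logarithms are wide (by the hyperplane theorem), for an abstract field
-/

set_option autoImplicit false

namespace Pool.Agent.H443.VF

open Finset Module
open Pool.Agent.K3h28.NF (Wide)
open Pool.Agent.W254.PA (Hyp)

variable {κ C : Type} [Field κ] [Field C] [Algebra κ C]

/-- A family of vectors with independent entries in a space with the hyperplane property is wide. -/
theorem wide_of_hyp {V₀ : Submodule κ C} (hV₀ : Hyp V₀) {B M : Type} [Fintype B] [Fintype M]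
    (w : B → M → C) (hw : ∀ i c, w i c ∈ V₀)
    (hli : LinearIndependent κ (fun p : B × M => w p.1 p.2)) :
    Wide κ (Fintype.card M * (Fintype.card M - 1)) w := by
  classical
  intro V hV α hα
  by_contra hα0
  set X : Submodule κ C := Submodule.span κ (Set.range α) with hX
  have hXf : FiniteDimensional κ X := FiniteDimensional.span_of_finite κ (Set.finite_range _)
  set d := finrank κ X with hd
  have hdm : d ≤ Fintype.card M := finrank_range_le_card α
  let bX := Module.finBasis κ X
  let x : Fin d → C := fun e => ((bX e : X) : C)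
  have hx : LinearIndependent κ x := bX.linearIndependent.map' X.subtype X.ker_subtype
  have hαX : ∀ c, α c ∈ X := fun c => Submodule.subset_span ⟨c, rfl⟩
  let ρ : M → Fin d → κ := fun c e => bX.repr ⟨α c, hαX c⟩ e
  have hαr : ∀ c, α c = ∑ e, ρ c e • x e := by
    intro c
    have h3 := bX.sum_repr ⟨α c, hαX c⟩
    have h4 := congrArg (fun z : X => (z : C)) h3
    simp only [Submodule.coe_sum, Submodule.coe_smul] at h4
    exact h4.symm
  obtain ⟨c₁, e₁, hce⟩ : ∃ c e, ρ c e ≠ 0 := by
    by_contra hcon
    push Not at hcon
    apply hα0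
    funext c
    rw [hαr c, Pi.zero_apply]
    apply Finset.sum_eq_zero
    intro e _
    rw [hcon c e, zero_smul]
  set l := finrank κ V with hl
  let bV := Module.finBasis κ V
  let T : Fin l → (B → κ) := fun k => (bV k : B → κ)
  have hTV : ∀ k, T k ∈ V := fun k => (bV k).2
  let a : Fin d → Fin l → C := fun e k => ∑ c, ρ c e • ∑ i, T k i • w i c
  have hhyp := hV₀ d l x a hx ?_ ?_ ?_
  · have h1 : d * (d - 1) ≤ Fintype.card M * (Fintype.card M - 1) := by
      apply Nat.mul_le_mul hdm
      omega
    omega
  · intro e k
    apply Submodule.sum_mem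
    intro c _
    apply Submodule.smul_mem
    apply Submodule.sum_mem
    intro i _
    exact Submodule.smul_mem _ _ (hw i c)
  · intro k
    have h1 := hα (T k) (hTV k)
    rw [← h1]
    simp only [a, Finset.mul_sum]
    rw [Finset.sum_comm]
    apply Finset.sum_congr rfl
    intro c _
    conv_rhs => rw [hαr c]
    simp only [Finset.sum_mul, Finset.mul_sum, Finset.smul_sum]
    rw [Finset.sum_comm]
    apply Finset.sum_congr rfl
    intro i _
    apply Finset.sum_congr rfl
    intro e _
    simp only [Algebra.smul_def]
    ring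
  · rw [Fintype.linearIndependent_iff]
    intro g hg
    have h1 : ∀ p : B × M, ρ p.2 e₁ * ∑ k, g k * T k p.1 = 0 := by
      apply Fintype.linearIndependent_iff.1 hli (fun p : B × M => ρ p.2 e₁ * ∑ k, g k * T k p.1)
      have h2 := congrFun hg e₁
      rw [Finset.sum_apply] at h2
      rw [Pi.zero_apply] at h2
      rw [← h2, Fintype.sum_prod_type]
      simp only [Pi.smul_apply, a, Finset.smul_sum, smul_smul, Finset.mul_sum, Finset.sum_smul]
      rw [Finset.sum_comm]
      rw [Finset.sum_comm (s := (univ : Finset (Fin l)))]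
      apply Finset.sum_congr rfl
      intro c _
      rw [Finset.sum_comm]
      apply Finset.sum_congr rfl
      intro k _
      apply Finset.sum_congr rfl
      intro i _
      congr 1
      ring
    have h3 : ∑ k, g k • T k = 0 := by
      funext i
      rw [Finset.sum_apply, Pi.zero_apply]
      have h4 := h1 (i, c₁)
      rcases mul_eq_zero.1 h4 with h5 | h5
      · exact absurd h5 hce
      · rw [← h5]
        apply Finset.sum_congr rfl
        intro k _
        rw [Pi.smul_apply, smul_eq_mul]
    have h6 : ∑ k, g k • bV k = 0 := by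
      apply Subtype.ext
      rw [Submodule.coe_sum]
      simpa using h3
    exact Fintype.linearIndependent_iff.1 bV.linearIndependent g h6

theorem wideAll_of_hyp {V₀ : Submodule κ C} (hV₀ : Hyp V₀) {r : ℕ} {M : Type} [Fintype M]
    (w : Fin r → M → C) (hw : ∀ i c, w i c ∈ V₀)
    (hli : LinearIndependent κ (fun p : Fin r × M => w p.1 p.2)) :
    WideAll κ (Fintype.card M * (Fintype.card M - 1)) w := by
  classical
  intro B
  refine wide_of_hyp hV₀ (fun (i : B) c => w i c) (fun i c => hw _ _) ?_
  refine hli.comp (fun p : B × M => ((p.1 : Fin r), p.2)) ?_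
  rintro ⟨⟨i, hi⟩, c⟩ ⟨⟨j, hj⟩, c'⟩ h
  simp only [Prod.mk.injEq] at h
  obtain ⟨h1, h2⟩ := h
  subst h1
  subst h2
  rfl

end Pool.Agent.H443.VF
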