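import Mathlib
import Pool.Agent.H443.NF.Cub
import Pool.Agent.H443.VF.Val
import Pool.Agent.H443.VF.Wide
import Pool.Agent.H443.VF.Free

/-!
# Logarithms of the conjugates of almost all integers of a number field, for an abstract logarithm
-/

set_option autoImplicit false

namespace Pool.Agent.H443.VF

open NumberField IsDedekindDomain Finset
open Pool.Agent.H443.NF (chr chr_prime chr_mem Rto Gto Om mem_Om card_Om)
open Pool.Agent.W254.PA (Hyp)

/-- An abstract logarithm on a field `C`: complex logarithms (principal branch, `tau = 2 π i`,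
`q = 1`) and the Iwasawa logarithm (`tau = 0`, `q = p`) are the examples. -/
structure LogSys (C : Type) [Field C] [CharZero C] where
  /-- the logarithm -/
  lg : C → C
  /-- the period -/
  tau : C
  /-- the kernel is generated by `q`, up to roots of unity -/
  q : ℕ
  qp : ∀ l : ℕ, l.Prime → l ≠ q → Nat.Coprime l q
  /-- linear forms in logarithms -/
  V₀ : Submodule (algebraicClosure ℚ C) C
  hyp : Hyp V₀
  lg_mem : ∀ a : C, a ≠ 0 → IsAlgebraic ℚ a → lg a ∈ V₀
  indep : ∀ (ι : Type) [Fintype ι] (a b : ι → C), (∀ i, a i ≠ 0 ∧ IsAlgebraic ℚ (a i)) →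
    (∀ i, b i ≠ 0 ∧ IsAlgebraic ℚ (b i)) →
    (∀ (g : ι → ℤ) (e : ℤ), ∏ i, (a i / b i) ^ (g i) = (q : C) ^ e → g = 0) →
    LinearIndependent (algebraicClosure ℚ C) (fun i => lg (a i) - lg (b i))
  shift : ∀ (R : ℕ) (K : Type) [Field K] (σ : K →+* C) (ξ ζ : Fin R → K) (a b : K)
    (S : Finset (Fin R)), a ≠ 0 → b ≠ 0 → (∀ i, ξ i ≠ 0) → (∀ i, ζ i ≠ 0) →
    (∀ i (ρ : K →+* ℂ), |Complex.arg (ρ (ζ i)) - Complex.arg (ρ (ξ i))| < 1 / ((R : ℝ) + 1)) →
    a * ∏ i ∈ S, ξ i = b * ∏ i ∈ S, ζ i →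
    ∃ k : Fin 3, lg (σ a) = lg (σ b) + ∑ i ∈ S, (lg (σ (ζ i)) - lg (σ (ξ i))) +
      (((k : ℕ) : ℤ) - 1 : ℤ) * tau
  scale : ∀ (M : ℕ) (z : C), M ≠ 0 → z ≠ 0 → lg (M * z) = lg M + lg z

theorem sum_subspace {C : Type} [Field C] {R : ℕ} {η : Type} [Fintype η] [DecidableEq η]
    (l : Combinatorics.Subspace η Bool (Fin R)) (S : Finset η) (w : Fin R → C) :
    ∑ i ∈ univ.filter (fun i => l (fun e => decide (e ∈ S)) i = true), w i =
      ∑ i ∈ univ.filter (fun i => l.idxFun i = Sum.inl true), w i +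
        ∑ e ∈ S, ∑ i ∈ univ.filter (fun i => l.idxFun i = Sum.inr e), w i := by
  classical
  simp only [Finset.sum_filter]
  rw [Finset.sum_comm, ← Finset.sum_add_distrib]
  refine Finset.sum_congr rfl fun i _ => ?_
  rw [Combinatorics.Subspace.apply_def]
  rcases h : l.idxFun i with (_ | _) | e
  · simp
  · simp
  · simp

theorem indep_blocks {κ C : Type} [Field κ] [Field C] [Algebra κ C] {R : ℕ} {η M : Type}
    [Fintype η] [DecidableEq η] [Fintype M]
    (l : Combinatorics.Subspace η Bool (Fin R)) (w : Fin R → M → C)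
    (hw : LinearIndependent κ (fun p : Fin R × M => w p.1 p.2)) :
    LinearIndependent κ (fun p : η × M =>
      ∑ i ∈ univ.filter (fun i => l.idxFun i = Sum.inr p.1), w i p.2) := by
  classical
  rw [Fintype.linearIndependent_iff] at hw ⊢
  intro g hg
  set G : Fin R × M → κ := fun p => ∑ e, (if l.idxFun p.1 = Sum.inr e then g (e, p.2) else 0) with hG
  have h1 : ∑ p : Fin R × M, G p • w p.1 p.2 = 0 := by
    rw [← hg, Fintype.sum_prod_type, Fintype.sum_prod_type, Finset.sum_comm,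
      Finset.sum_comm (s := (univ : Finset η))]
    refine Finset.sum_congr rfl fun m _ => ?_
    simp only [hG, Finset.smul_sum, Finset.sum_smul, Finset.sum_filter]
    rw [Finset.sum_comm]
    refine Finset.sum_congr rfl fun e _ => Finset.sum_congr rfl fun i _ => ?_
    split_ifs <;> simp
  have h2 := hw G h1
  rintro ⟨e, m⟩
  obtain ⟨i, hi⟩ := l.proper e
  have h3 := h2 (i, m)
  simp only [hG, hi, Sum.inr.injEq] at h3
  rw [Finset.sum_eq_single e] at h3
  · simpa using h3
  · intro e' _ he'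
    rw [if_neg (fun h => he' h.symm)]
  · intro h
    exact absurd (Finset.mem_univ _) h

variable (K : Type) [Field K] [NumberField K]

open Classical in
/-- **One variable.** -/
theorem density_one (n D : ℕ) (ε : ℝ) (hε : 0 < ε) : ∃ x₀ : ℕ, ∀ x ≥ x₀,
    ∀ (C : Type) [Field C] [CharZero C] [IsAlgClosed C] (𝓢 : LogSys C)
    (W : Submodule (algebraicClosure ℚ C) C), Module.Finite (algebraicClosure ℚ C) W →
    Module.finrank (algebraicClosure ℚ C) W ≤ n → ∀ s : (K →+* C) → C,
      (((Om K x).filter fun α : 𝓞 K => α ≠ 0 ∧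
        ¬ FreeOver W D (fun ρ : K →+* C => 𝓢.lg (ρ (α : K)) + s ρ)).card : ℝ) ≤
          ε * (Om K x).card := by
  classical
  set m := Module.finrank ℚ K with hm
  obtain ⟨r, hr⟩ := cubeV n m D (m * (m - 1))
  obtain ⟨R, hR⟩ := Combinatorics.Subspace.exists_mono_in_high_dimension_fin Bool
    (Fin m → Fin 3) (Fin r)
  obtain ⟨J, hJ⟩ := Pool.Agent.H443.NF.cube K (1 / ((R : ℝ) + 1)) (by positivity)
  obtain ⟨Y, hY⟩ := mult_indep K
  obtain ⟨x₀, hx₀⟩ := hJ (R + 1) ε hε Y
  refine ⟨x₀, fun x hx C _ _ _ 𝓢 W hWf hWn s => ?_⟩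
  by_contra hcon
  push Not at hcon
  obtain ⟨a, v, w, ξ, ζ, h1, h2, h3, h4, h5, h6, harg, h7⟩ :=
    hx₀ x hx _ (Finset.filter_subset _ _) hcon.le
  have hac : IsAlgClosed (algebraicClosure ℚ C) := (algebraicClosure.isAlgClosure ℚ C).isAlgClosed
  -- the bad index
  obtain ⟨i₁, hi₁⟩ : ∃ i₁ : Fin (R + 1), ∀ i, i ≠ i₁ → chr K (w i) ≠ 𝓢.q := by
    by_cases h : ∃ i, chr K (w i) = 𝓢.q
    · obtain ⟨i₁, h⟩ := h
      exact ⟨i₁, fun i hi h' => h6 i i₁ hi (h'.trans h.symm)⟩
    · push Not at h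
      exact ⟨0, fun i _ => h i⟩
  let f : Fin R ↪o Fin (R + 1) := i₁.succAboveOrderEmb
  have hf : ∀ j, f j ≠ i₁ := fun j => i₁.succAbove_ne j
  -- the cardinality of the set of embeddings
  have hcard : Fintype.card (K →+* C) = m := NumberField.Embeddings.card K C
  let e : (K →+* C) ≃ Fin m := Fintype.equivFinOfCardEq hcard
  -- the elements
  choose α hα hα' using fun S : Finset (Fin R) => h7 (S.map f.toEmbedding)
  have hα0 : ∀ S, (α S : K) ≠ 0 := fun S h =>
    (Finset.mem_filter.1 (hα S)).2.1 (RingOfIntegers.coe_injective h)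
  have hrel : ∀ S : Finset (Fin R), (α S : K) * ∏ j ∈ S, ξ (f j) = (α ∅ : K) * ∏ j ∈ S, ζ (f j) := by
    intro S
    rw [hα' S, hα' ∅, mul_assoc, mul_assoc]
    congr 1
    have e1 : ∀ c : Fin (R + 1) → K, ∏ j ∈ S, c (f j) = ∏ i, (if i ∈ S.map f.toEmbedding then c i else 1) := by
      intro c
      rw [Finset.prod_ite_mem, Finset.univ_inter, Finset.prod_map]
      rfl
    rw [e1 ξ, e1 ζ, ← Finset.prod_mul_distrib, ← Finset.prod_mul_distrib]
    refine Finset.prod_congr rfl fun i _ => ?_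
    have e2 : i ∉ (∅ : Finset (Fin R)).map f.toEmbedding := by simp
    rw [if_neg e2]
    by_cases hi : i ∈ S.map f.toEmbedding
    · rw [if_pos hi, if_pos hi, if_pos hi, mul_comm]
    · rw [if_neg hi, if_neg hi, if_neg hi]
  have hcmp : ∀ (S : Finset (Fin R)) (ρ : K →+* C), ∃ k : Fin 3, 𝓢.lg (ρ (α S : K)) =
      𝓢.lg (ρ (α ∅ : K)) + ∑ j ∈ S, (𝓢.lg (ρ (ζ (f j))) - 𝓢.lg (ρ (ξ (f j)))) +
        (((k : ℕ) : ℤ) - 1 : ℤ) * 𝓢.tau := by
    intro S ρ
    exact 𝓢.shift R K ρ (fun j => ξ (f j)) (fun j => ζ (f j)) _ _ S (hα0 S) (hα0 ∅)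
      (fun j => (h1 _).1) (fun j => (h2 _).1) (fun j ρ' => harg _ ρ') (hrel S)
  choose k hk using hcmp
  -- independence
  set w' : Fin R → (K →+* C) → C := fun j ρ => 𝓢.lg (ρ (ζ (f j))) - 𝓢.lg (ρ (ξ (f j))) with hw'
  have hne0 : ∀ (ρ : K →+* C) (y : K), y ≠ 0 → ρ y ≠ 0 ∧ IsAlgebraic ℚ (ρ y) := by
    intro ρ y hy
    refine ⟨by rwa [Ne, map_eq_zero], ?_⟩
    exact (Algebra.IsAlgebraic.isAlgebraic y).algHom ρ.toRatAlgHom
  have hli : LinearIndependent (algebraicClosure ℚ C) (fun p : Fin R × (K →+* C) => w' p.1 p.2) := by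
    refine 𝓢.indep (Fin R × (K →+* C)) (fun p => p.2 (ζ (f p.1))) (fun p => p.2 (ξ (f p.1)))
      (fun p => hne0 p.2 _ (h2 _).1) (fun p => hne0 p.2 _ (h1 _).1) ?_
    intro g e₀ hg
    refine hY C R (fun j => v (f j)) (fun j => w (f j)) (fun j => ζ (f j) / ξ (f j))
      (fun j => (h1 _).rto (h2 _)) (fun j => h3 _) (fun j => (h4 _).2) (fun i j => h5 _ _)
      (fun i j hij => h6 _ _ (fun h => hij (f.injective h))) 𝓢.q
      (fun j => 𝓢.qp _ (chr_prime K _) (hi₁ _ (hf j))) g e₀ ?_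
    rw [← hg]
    refine Finset.prod_congr rfl fun z _ => ?_
    rw [map_div₀]
  obtain ⟨l, c, hc⟩ := hR (fun z i => k (univ.filter (fun i => z i = true)) (e.symm i))
  set Wb : Fin r → (K →+* C) → C := fun b ρ =>
    ∑ i ∈ univ.filter (fun i => l.idxFun i = Sum.inr b), w' i ρ with hWb
  have hWli : LinearIndependent (algebraicClosure ℚ C) (fun p : Fin r × (K →+* C) => Wb p.1 p.2) :=
    indep_blocks l w' hli
  have hWmem : ∀ b ρ, Wb b ρ ∈ 𝓢.V₀ := by
    intro b ρ
    refine Submodule.sum_mem _ fun i _ => Submodule.sub_mem _ ?_ ?_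
    · exact 𝓢.lg_mem _ (hne0 ρ _ (h2 _).1).1 (hne0 ρ _ (h2 _).1).2
    · exact 𝓢.lg_mem _ (hne0 ρ _ (h1 _).1).1 (hne0 ρ _ (h1 _).1).2
  set v₀ : (K →+* C) → C := fun ρ => 𝓢.lg (ρ (α ∅ : K)) +
    ∑ i ∈ univ.filter (fun i => l.idxFun i = Sum.inl true), w' i ρ +
      (((c (e ρ) : ℕ) : ℤ) - 1 : ℤ) * 𝓢.tau + s ρ with hv₀
  obtain ⟨S, hS⟩ := hr (algebraicClosure ℚ C) C W hWf hWn (fun i => v₀ (e.symm i))
    (fun b i => Wb b (e.symm i)) (by
      have h8 := wideAll_of_hyp 𝓢.hyp (M := Fin m) (fun b i => Wb b (e.symm i))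
        (fun b i => hWmem _ _) (by
          refine hWli.comp (fun p : Fin r × Fin m => (p.1, e.symm p.2)) ?_
          rintro ⟨b, i⟩ ⟨b', i'⟩ h
          simp only [Prod.mk.injEq] at h
          rw [h.1, e.symm.injective h.2])
      rw [Fintype.card_fin] at h8
      exact h8)
  have hS' : FreeOver W D (fun ρ : K →+* C => v₀ ρ + ∑ b ∈ S, Wb b ρ) := by
    apply FreeOver.of_equiv e.symm
    exact hS
  set z : Fin r → Bool := fun b => decide (b ∈ S) with hz
  have h8 := (Finset.mem_filter.1 (hα (univ.filter (fun i => l z i = true)))).2.2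
  apply h8
  have h9 : (fun ρ : K →+* C => 𝓢.lg (ρ (α (univ.filter (fun i => l z i = true)) : K)) + s ρ) =
      fun ρ => v₀ ρ + ∑ b ∈ S, Wb b ρ := by
    funext ρ
    have h10 : k (univ.filter (fun i => l z i = true)) ρ = c (e ρ) := by
      have h11 : k (univ.filter (fun i => l z i = true)) (e.symm (e ρ)) = c (e ρ) :=
        congrFun (hc z) (e ρ)
      rw [Equiv.symm_apply_apply] at h11
      exact h11
    rw [hk, h10, sum_subspace l S (fun i => w' i ρ)]
    simp only [hv₀, hWb]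
    ring
  rw [h9]
  exact hS'

open Classical in
/-- **One variable, with an arbitrary basis.** -/
theorem density_basis {ι : Type} [Fintype ι] (b : Module.Basis ι ℚ K) (n D : ℕ)
    (ε : ℝ) (hε : 0 < ε) : ∃ N₀ : ℕ, ∀ N ≥ N₀,
    ∀ (C : Type) [Field C] [CharZero C] [IsAlgClosed C] (𝓢 : LogSys C)
    (W : Submodule (algebraicClosure ℚ C) C), Module.Finite (algebraicClosure ℚ C) W →
    Module.finrank (algebraicClosure ℚ C) W ≤ n → ∀ s : (K →+* C) → C,
      (((Fintype.piFinset fun _ : ι => Finset.Icc (-(N : ℤ)) N).filter fun x => x ≠ 0 ∧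
        ¬ FreeOver W D (fun ρ : K →+* C =>
          𝓢.lg (ρ (∑ i, (x i : K) * b i)) + s ρ)).card : ℝ) ≤
          ε * (Fintype.piFinset fun _ : ι => Finset.Icc (-(N : ℤ)) N).card := by
  classical
  -- an integral multiple of the basis
  have hZK : Algebra.IsAlgebraic ℤ K :=
    (IsFractionRing.comap_isAlgebraic_iff (A := ℤ) (K := ℚ) (C := K)).2 inferInstance
  obtain ⟨y, hy0, hy⟩ := Algebra.IsAlgebraic.exists_integral_multiples ℤ (univ.image b)
  set M : ℕ := y.natAbs with hM
  have hM0 : M ≠ 0 := Int.natAbs_ne_zero.2 hy0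
  have hint : ∀ i, IsIntegral ℤ ((M : K) * b i) := by
    intro i
    have h1 := hy (b i) (Finset.mem_image_of_mem _ (Finset.mem_univ i))
    rw [zsmul_eq_mul] at h1
    rcases Int.natAbs_eq y with h2 | h2
    · rw [h2] at h1
      simpa [hM] using h1
    · rw [h2] at h1
      have h3 := h1.neg
      simpa [hM] using h3
  let β : ι → 𝓞 K := fun i => ⟨(M : K) * b i, hint i⟩
  have hβ : ∀ i, (β i : K) = (M : K) * b i := fun i => rfl
  set n' := Module.finrank ℚ K with hn
  have hnι : Fintype.card ι = n' := (Module.finrank_eq_card_basis b).symm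
  set c : ℕ := 1 + ∑ i, ∑ j, ((RingOfIntegers.basis K).repr (β i) j).natAbs with hc
  have hcR : (1 : ℝ) ≤ c := by
    rw [hc]
    push_cast
    have : (0 : ℝ) ≤ ∑ i, ∑ j, (((RingOfIntegers.basis K).repr (β i) j).natAbs : ℝ) := by positivity
    linarith
  have hc0 : (0 : ℝ) < (c : ℝ) ^ n' := by positivity
  obtain ⟨x₀, hx₀⟩ := density_one K n D (ε / (c : ℝ) ^ n') (by positivity)
  refine ⟨x₀, fun N hN C _ _ _ 𝓢 W hWf hWn s => ?_⟩
  set s' : (K →+* C) → C := fun ρ => s ρ - 𝓢.lg (M : C) with hs'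
  have h1 := hx₀ (c * N) (by
    have : 1 ≤ c := by omega
    nlinarith) C 𝓢 W hWf hWn s'
  set f : (ι → ℤ) → 𝓞 K := fun x => ∑ i, (x i : 𝓞 K) * β i with hf
  have hfK : ∀ x, (f x : K) = (M : K) * ∑ i, (x i : K) * b i := by
    intro x
    show algebraMap (𝓞 K) K (∑ i, (x i : 𝓞 K) * β i) = _
    rw [map_sum, Finset.mul_sum]
    refine Finset.sum_congr rfl fun i _ => ?_
    rw [map_mul, map_intCast]
    show (x i : K) * ((M : K) * b i) = _
    ring
  have hMK : (M : K) ≠ 0 := by exact_mod_cast hM0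
  have hinj : Function.Injective f := by
    intro x z h
    have h2 : ∑ i, (x i : K) * b i = ∑ i, (z i : K) * b i := by
      have h3 : (f x : K) = (f z : K) := by rw [h]
      rw [hfK, hfK] at h3
      exact mul_left_cancel₀ hMK h3
    have h4 : ∑ i, ((x i : ℚ) - z i) • b i = 0 := by
      have h5 : ∀ i, ((x i : ℚ) - z i) • b i = (x i : K) * b i - (z i : K) * b i := by
        intro i
        rw [Algebra.smul_def]
        simp [sub_mul]
      simp only [h5]
      rw [Finset.sum_sub_distrib, h2, sub_self]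
    have h6 := Fintype.linearIndependent_iff.1 b.linearIndependent _ h4
    funext i
    have h7 := h6 i
    rw [sub_eq_zero] at h7
    exact_mod_cast h7
  have hbox : ∀ x ∈ Fintype.piFinset fun _ : ι => Finset.Icc (-(N : ℤ)) N, f x ∈ Om K (c * N) := by
    intro x hx
    rw [Fintype.mem_piFinset] at hx
    rw [mem_Om]
    intro j
    have h2 : (RingOfIntegers.basis K).repr (f x) j =
        ∑ i, x i * (RingOfIntegers.basis K).repr (β i) j := by
      simp only [hf]
      rw [map_sum, Finsupp.finsetSum_apply]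
      refine Finset.sum_congr rfl fun i _ => ?_
      rw [← zsmul_eq_mul, map_zsmul, Finsupp.smul_apply, smul_eq_mul]
    rw [h2]
    calc |∑ i, x i * (RingOfIntegers.basis K).repr (β i) j|
        ≤ ∑ i, |x i * (RingOfIntegers.basis K).repr (β i) j| := Finset.abs_sum_le_sum_abs _ _
      _ ≤ ∑ i, (N : ℤ) * ((RingOfIntegers.basis K).repr (β i) j).natAbs := by
          refine Finset.sum_le_sum fun i _ => ?_
          rw [abs_mul, Int.abs_eq_natAbs ((RingOfIntegers.basis K).repr (β i) j)]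
          exact mul_le_mul_of_nonneg_right (abs_le.2 (Finset.mem_Icc.1 (hx i))) (by positivity)
      _ ≤ ((c * N : ℕ) : ℤ) := by
          rw [← Finset.mul_sum]
          push_cast
          rw [mul_comm (c : ℤ)]
          apply mul_le_mul_of_nonneg_left _ (by positivity)
          have h3 : ∑ i, (((RingOfIntegers.basis K).repr (β i) j).natAbs : ℤ) ≤
              ∑ i, ∑ j, (((RingOfIntegers.basis K).repr (β i) j).natAbs : ℤ) := by
            refine Finset.sum_le_sum fun i _ => ?_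
            exact Finset.single_le_sum
              (f := fun j => (((RingOfIntegers.basis K).repr (β i) j).natAbs : ℤ))
              (fun _ _ => by positivity) (Finset.mem_univ j)
          rw [hc]
          push_cast at h3 ⊢
          linarith
  have h2 : ((Fintype.piFinset fun _ : ι => Finset.Icc (-(N : ℤ)) N).filter fun x => x ≠ 0 ∧
        ¬ FreeOver W D (fun ρ : K →+* C =>
          𝓢.lg (ρ (∑ i, (x i : K) * b i)) + s ρ)).card ≤
      ((Om K (c * N)).filter fun α : 𝓞 K => α ≠ 0 ∧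
        ¬ FreeOver W D (fun ρ : K →+* C => 𝓢.lg (ρ (α : K)) + s' ρ)).card := by
    apply Finset.card_le_card_of_injOn f
    · intro x hx
      have hx' := Finset.mem_filter.1 (Finset.mem_coe.1 hx)
      rw [Finset.mem_coe, Finset.mem_filter]
      refine ⟨hbox x hx'.1, ?_, ?_⟩
      · intro h
        apply hx'.2.1
        apply hinj
        rw [h]
        simp [hf]
      · intro hno
        apply hx'.2.2
        have h3 : (fun ρ : K →+* C => 𝓢.lg (ρ (∑ i, (x i : K) * b i)) + s ρ) =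
            fun ρ => 𝓢.lg (ρ (f x : K)) + s' ρ := by
          funext ρ
          have h4 : ρ (f x : K) = (M : C) * ρ (∑ i, (x i : K) * b i) := by
            rw [hfK, map_mul, map_natCast]
          have h5 : ρ (∑ i, (x i : K) * b i) ≠ 0 := by
            rw [Ne, map_eq_zero]
            intro h
            apply hx'.2.1
            apply hinj
            apply RingOfIntegers.coe_injective
            show (f x : K) = (f 0 : K)
            rw [hfK, hfK, h]
            simp
          rw [h4, 𝓢.scale M _ hM0 h5]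
          simp only [hs']
          ring
        rw [h3]
        exact hno
    · exact hinj.injOn
  have h3 : ((Om K (c * N)).card : ℝ) ≤ (c : ℝ) ^ n' *
      (Fintype.piFinset fun _ : ι => Finset.Icc (-(N : ℤ)) N).card := by
    rw [card_Om, Fintype.card_piFinset]
    simp only [Int.card_Icc, Finset.prod_const, Finset.card_univ]
    rw [hnι, ← hn]
    have h4 : ((N : ℤ) + 1 - -(N : ℤ)).toNat = 2 * N + 1 := by omega
    rw [h4]
    push_cast
    rw [← mul_pow]
    apply pow_le_pow_left₀ (by positivity)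
    nlinarith [(Nat.cast_nonneg N : (0 : ℝ) ≤ N)]
  refine (Nat.cast_le.2 h2).trans (h1.trans ?_)
  calc ε / (c : ℝ) ^ n' * ((Om K (c * N)).card : ℝ) ≤ ε / (c : ℝ) ^ n' * ((c : ℝ) ^ n' *
      (Fintype.piFinset fun _ : ι => Finset.Icc (-(N : ℤ)) N).card) :=
        mul_le_mul_of_nonneg_left h3 (by positivity)
    _ = ε * (Fintype.piFinset fun _ : ι => Finset.Icc (-(N : ℤ)) N).card := by
        field_simp

end Pool.Agent.H443.VF
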