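import Mathlib
import Pool.Agent.H443.VF.Sys
import Pool.Agent.H443.NF.Den
import Pool.Graph.R_seed8.W245.PB.PLog
import Pool.Graph.R_seed8.W254.PA.LogP

/-!
# The complex logarithm and the Iwasawa logarithm
-/

set_option autoImplicit false

namespace Pool.Agent.H443.VF

open Finset
open Pool.Agent.H301R2.SSE (QB mem_QB Lt Lt_rep Lt_mul Lt_alg Lt_log)
open Pool.Agent.W245.PB (IsIwasawaLog linearIndependent_of_int exists_near)
open Pool.Agent.W254.PA (LtE logs hyp_padic)

/-- The complex logarithm. -/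
noncomputable def cSys : LogSys ℂ where
  lg := Complex.log
  tau := 2 * Real.pi * Complex.I
  q := 1
  qp := fun l _ _ => Nat.coprime_one_right l
  V₀ := Lt
  hyp := fun d l x a hx ha hxa hcol => Pool.Agent.W254.HP.hyperplane d l x a hx ha hxa hcol
  lg_mem := fun a ha halg => Lt_log (by rw [Complex.exp_log ha]; exact halg)
  indep := by
    intro ι _ a b ha hb h
    refine Pool.Agent.K3h28.NF.baker_indep (fun i => Complex.log (a i) - Complex.log (b i)) ?_ ?_
    · intro i
      rw [Complex.exp_sub, Complex.exp_log (ha i).1, Complex.exp_log (hb i).1, div_eq_mul_inv]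
      exact (ha i).2.mul (hb i).2.inv
    · apply linearIndependent_of_int
      intro c hc
      have h1 := h c 0 (by
        rw [zpow_zero, ← Complex.exp_zero, ← hc, Complex.exp_sum]
        refine Finset.prod_congr rfl fun i _ => ?_
        rw [Complex.exp_int_mul, Complex.exp_sub, Complex.exp_log (ha i).1,
          Complex.exp_log (hb i).1])
      exact fun i => congrFun h1 i
  shift := by
    intro R K _ σ ξ ζ a b S ha hb hξ hζ harg hrel
    have hξ0 : ∀ i, σ (ξ i) ≠ 0 := fun i => by rw [Ne, map_eq_zero]; exact hξ i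
    have hζ0 : ∀ i, σ (ζ i) ≠ 0 := fun i => by rw [Ne, map_eq_zero]; exact hζ i
    refine Pool.Agent.H443.NF.log_shift _ _ _ ?_ ?_ ?_ ?_
    · rw [Ne, map_eq_zero]; exact ha
    · rw [Ne, map_eq_zero]; exact hb
    · rw [Complex.exp_sum]
      have h1 : ∀ i ∈ S, Complex.exp (Complex.log (σ (ζ i)) - Complex.log (σ (ξ i))) =
          σ (ζ i) / σ (ξ i) := by
        intro i _
        rw [Complex.exp_sub, Complex.exp_log (hζ0 i), Complex.exp_log (hξ0 i)]
      rw [Finset.prod_congr rfl h1, Finset.prod_div_distrib]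
      have h2 : ∏ i ∈ S, σ (ξ i) ≠ 0 := Finset.prod_ne_zero_iff.2 fun i _ => hξ0 i
      have h3 := congrArg σ hrel
      rw [map_mul, map_mul, map_prod, map_prod] at h3
      rw [mul_div_assoc', eq_div_iff h2, h3]
    · rw [Complex.im_sum]
      calc |∑ i ∈ S, (Complex.log (σ (ζ i)) - Complex.log (σ (ξ i))).im|
          ≤ ∑ i ∈ S, |(Complex.log (σ (ζ i)) - Complex.log (σ (ξ i))).im| :=
            Finset.abs_sum_le_sum_abs _ _
        _ ≤ ∑ _i ∈ S, 1 / ((R : ℝ) + 1) := Finset.sum_le_sum fun i _ => by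
            rw [Complex.sub_im, Complex.log_im, Complex.log_im]
            exact (harg i σ).le
        _ = S.card * (1 / ((R : ℝ) + 1)) := by rw [Finset.sum_const, nsmul_eq_mul]
        _ ≤ 1 := by
          rw [mul_one_div, div_le_one (by positivity)]
          have h13 : S.card ≤ R := by simpa using Finset.card_le_univ S
          have h14 : (S.card : ℝ) ≤ R := by exact_mod_cast h13
          linarith
  scale := by
    intro M z hM hz
    have h6 : (0 : ℝ) < M := by exact_mod_cast Nat.pos_of_ne_zero hM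
    have h7 := Complex.log_ofReal_mul h6 hz
    have h8 : ((M : ℝ) : ℂ) = (M : ℂ) := by norm_cast
    rw [h8] at h7
    rw [h7, ← Complex.ofReal_natCast M, Complex.ofReal_log h6.le]

/-- The Iwasawa logarithm. -/
noncomputable def pSys {p : ℕ} [hp : Fact p.Prime] {L : PadicAlgCl p → PadicAlgCl p}
    (hL : IsIwasawaLog p L) : LogSys (PadicAlgCl p) where
  lg := L
  tau := 0
  q := p
  qp := fun l hl hne => (Nat.coprime_primes hl hp.out).2 hne
  V₀ := LtE (logs L)
  hyp := hyp_padic hL
  lg_mem := fun a ha halg => Submodule.subset_span (Or.inr ⟨a, ha, halg, rfl⟩)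
  indep := by
    intro ι _ a b ha hb h
    have hq0 : ∀ i, a i / b i ≠ 0 := fun i => div_ne_zero (ha i).1 (hb i).1
    have h1 : (fun i => L (a i) - L (b i)) = fun i => L (a i / b i) := by
      funext i
      rw [div_eq_mul_inv, hL.mul _ _ (ha i).1 (inv_ne_zero (hb i).1), hL.inv (hb i).1,
        sub_eq_add_neg]
    rw [h1]
    refine hL.indep_of_indep _ (fun i => ⟨_, hq0 i, ?_, rfl⟩) ?_
    · rw [div_eq_mul_inv]
      exact (ha i).2.mul (hb i).2.inv
    apply linearIndependent_of_int
    intro c hc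
    have hpne : (p : PadicAlgCl p) ≠ 0 := Nat.cast_ne_zero.2 hp.out.ne_zero
    set x : PadicAlgCl p := ∏ i, (a i / b i) ^ c i with hx
    have hx0 : x ≠ 0 := Finset.prod_ne_zero_iff.2 fun i _ => zpow_ne_zero _ (hq0 i)
    have hLx : L x = 0 := by
      rw [hx, hL.prod _ _ (fun i _ => zpow_ne_zero _ (hq0 i)), ← hc]
      apply Finset.sum_congr rfl
      intro i _
      rw [hL.zpow (hq0 i)]
    obtain ⟨m, e, hm, hnear⟩ := exists_near hx0
    have h2 := hL.eq_one hnear (by
      rw [hL.mul _ _ (pow_ne_zero _ hx0) (zpow_ne_zero _ hpne), hL.pow hx0, hL.zpow hpne, hLx,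
        hL.prime, mul_zero, mul_zero, add_zero])
    have h3 := h (fun i => (m : ℤ) * c i) (-e) (by
      rw [zpow_neg]
      refine Eq.trans ?_ (eq_inv_of_mul_eq_one_left h2)
      rw [hx, ← Finset.prod_pow]
      refine Finset.prod_congr rfl fun i _ => ?_
      rw [← zpow_natCast, ← zpow_mul, mul_comm])
    intro i
    have h5 := congrFun h3 i
    rw [Pi.zero_apply] at h5
    rcases mul_eq_zero.1 h5 with h6 | h6
    · exact absurd (by exact_mod_cast h6) hm.ne'
    · exact h6
  shift := by
    intro R K _ σ ξ ζ a b S ha hb hξ hζ _ hrel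
    have hσ : ∀ y : K, y ≠ 0 → σ y ≠ 0 := fun y hy => by rw [Ne, map_eq_zero]; exact hy
    refine ⟨0, ?_⟩
    have h1 := congrArg (fun y => L (σ y)) hrel
    simp only [map_mul, map_prod] at h1
    rw [hL.mul _ _ (hσ a ha) (Finset.prod_ne_zero_iff.2 fun i _ => hσ _ (hξ i)),
      hL.mul _ _ (hσ b hb) (Finset.prod_ne_zero_iff.2 fun i _ => hσ _ (hζ i)),
      hL.prod _ _ (fun i _ => hσ _ (hξ i)), hL.prod _ _ (fun i _ => hσ _ (hζ i))] at h1
    rw [mul_zero, add_zero, Finset.sum_sub_distrib]
    linear_combination h1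
  scale := fun M z hM hz => hL.mul _ _ (Nat.cast_ne_zero.2 hM) hz

end Pool.Agent.H443.VF
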