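import Mathlib
import Pool.Agent.H443.VF.Free
import Pool.Graph.R_seed8.Y921.SR.Pencil

/-!
# Singular matrices with entries in an extended space
-/

set_option autoImplicit false

namespace Pool.Agent.H443.VF

open Finset Module
open Pool.Agent.Y921.SR (ZeroProp Mt)

theorem FreeOver.mono_deg {κ C M : Type*} [CommRing κ] [CommRing C] [Algebra κ C] [Fintype M]
    {W : Submodule κ C} {D D' : ℕ} (hD : D ≤ D') {x : M → C} (h : FreeOver W D' x) :
    FreeOver W D x := by
  rw [freeOver_iff] at h ⊢
  exact fun P hP hW h0 => h P (hP.trans hD) hW h0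

section Aff

variable {C : Type} [Field C] [CharZero C] {F : Type} [Field F] [CharZero F] [Algebra F C]

/-- the space generated by `1` and `V` over the algebraic numbers -/
noncomputable def aff (V : Submodule F C) : Submodule (algebraicClosure ℚ C) C :=
  Submodule.span (algebraicClosure ℚ C) (insert 1 (V : Set C))

theorem one_mem_aff (V : Submodule F C) : (1 : C) ∈ aff V :=
  Submodule.subset_span (Set.mem_insert _ _)

theorem mem_aff (V : Submodule F C) {x : C} (hx : x ∈ V) : x ∈ aff V :=
  Submodule.subset_span (Set.mem_insert_of_mem _ hx)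

theorem algebraic_mem_aff (V : Submodule F C) {c : C} (hc : IsAlgebraic ℚ c) : c ∈ aff V := by
  have : c = (⟨c, mem_algebraicClosure_iff.2 hc⟩ : algebraicClosure ℚ C) • (1 : C) := by
    rw [Algebra.smul_def, mul_one]
    rfl
  rw [this]
  exact Submodule.smul_mem _ _ (one_mem_aff V)

theorem aff_eq (hF : ∀ c : F, IsAlgebraic ℚ (algebraMap F C c)) (V : Submodule F C)
    [Module.Finite F V] :
    aff V = Submodule.span (algebraicClosure ℚ C) (Set.range
      (fun o : Option (Fin (finrank F V)) => o.elim (1 : C) (fun i => (Module.finBasis F V i : C)))) := by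
  apply le_antisymm
  · rw [aff, Submodule.span_le]
    rintro x (rfl | hx)
    · exact Submodule.subset_span ⟨none, rfl⟩
    · have h1 := (Module.finBasis F V).sum_repr ⟨x, hx⟩
      have h2 : ∑ i, ((Module.finBasis F V).repr ⟨x, hx⟩ i) • (Module.finBasis F V i : C) = x := by
        have := congrArg V.subtype h1
        rw [map_sum] at this
        exact this
      rw [← h2]
      apply Submodule.sum_mem
      intro i _
      have h3 : ((Module.finBasis F V).repr ⟨x, hx⟩ i) • (Module.finBasis F V i : C) =
          (⟨algebraMap F C ((Module.finBasis F V).repr ⟨x, hx⟩ i),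
            mem_algebraicClosure_iff.2 (hF _)⟩ : algebraicClosure ℚ C) •
            (Module.finBasis F V i : C) := by
        rw [Algebra.smul_def, Algebra.smul_def]
        rfl
      rw [h3]
      exact Submodule.smul_mem _ _ (Submodule.subset_span ⟨some i, rfl⟩)
  · rw [Submodule.span_le]
    rintro _ ⟨o, rfl⟩
    rcases o with _ | i
    · exact one_mem_aff V
    · exact mem_aff V (Module.finBasis F V i).2

theorem aff_finite (hF : ∀ c : F, IsAlgebraic ℚ (algebraMap F C c)) (V : Submodule F C)
    [Module.Finite F V] : Module.Finite (algebraicClosure ℚ C) (aff V) := by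
  rw [aff_eq hF]
  exact FiniteDimensional.span_of_finite _ (Set.finite_range _)

theorem finrank_aff_le (hF : ∀ c : F, IsAlgebraic ℚ (algebraMap F C c)) (V : Submodule F C)
    [Module.Finite F V] : finrank (algebraicClosure ℚ C) (aff V) ≤ finrank F V + 1 := by
  rw [aff_eq hF]
  refine (finrank_range_le_card _).trans ?_
  simp

/-- a matrix of affine linear forms which is singular at a free point is identically singular -/
theorem det_ident (hF : ∀ c : F, IsAlgebraic ℚ (algebraMap F C c)) (V : Submodule F C)
    {σ : Type} [Fintype σ] (l : σ → C) {n : ℕ} (h : FreeOver (aff V ^ n) n l)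
    (W : Fin n → Fin n → C) (c : Fin n → Fin n → σ → F) (hW : ∀ i j, W i j ∈ V)
    (h0 : (Mt W c l).det = 0) : ∀ X : σ → C, (Mt W c X).det = 0 := by
  classical
  rw [freeOver_iff] at h
  set L : Fin n → Fin n → MvPolynomial σ C := fun i j => MvPolynomial.C (W i j) +
    ∑ p, MvPolynomial.C (algebraMap F C (c i j p)) * MvPolynomial.X p with hL
  have hLdeg : ∀ i j, (L i j).totalDegree ≤ 1 := by
    intro i j
    refine (MvPolynomial.totalDegree_add _ _).trans (max_le ?_ ?_)
    · rw [MvPolynomial.totalDegree_C]; exact Nat.zero_le _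
    · refine MvPolynomial.totalDegree_finsetSum_le fun p _ => ?_
      refine (MvPolynomial.totalDegree_mul _ _).trans ?_
      rw [MvPolynomial.totalDegree_C, zero_add]
      exact (MvPolynomial.totalDegree_X p).le
  have hLc : ∀ i j, CoeffIn (aff V) 1 (L i j) := by
    intro i j s
    rw [pow_one]
    simp only [hL]
    rw [MvPolynomial.coeff_add, MvPolynomial.coeff_C, MvPolynomial.coeff_sum]
    refine Submodule.add_mem _ ?_ (Submodule.sum_mem _ fun p _ => ?_)
    · split_ifs
      · exact mem_aff V (hW i j)
      · exact Submodule.zero_mem _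
    · rw [MvPolynomial.coeff_C_mul, MvPolynomial.coeff_X]
      split_ifs
      · rw [mul_one]; exact algebraic_mem_aff V (hF _)
      · rw [mul_zero]; exact Submodule.zero_mem _
  set P : MvPolynomial σ C := (Matrix.of L).det with hP
  have hev : ∀ X : σ → C, MvPolynomial.eval X P = (Mt W c X).det := by
    intro X
    rw [hP, RingHom.map_det]
    congr 1
    ext i j
    simp only [RingHom.mapMatrix_apply, Matrix.map_apply, Matrix.of_apply, hL, Mt, map_add, map_sum,
      map_mul, MvPolynomial.eval_C, MvPolynomial.eval_X, Algebra.smul_def]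
  have hPdeg : P.totalDegree ≤ n := by
    rw [hP, Matrix.det_apply]
    refine MvPolynomial.totalDegree_finsetSum_le fun τ _ => ?_
    have h1 : (∏ i, Matrix.of L (τ i) i).totalDegree ≤ n := by
      refine (MvPolynomial.totalDegree_finsetProd _ _).trans ?_
      refine (Finset.sum_le_card_nsmul _ _ 1 fun i _ => hLdeg _ _).trans ?_
      simp
    rcases Int.units_eq_one_or (Equiv.Perm.sign τ) with h2 | h2
    · rw [h2, one_smul]; exact h1
    · rw [h2, Units.neg_smul, one_smul, MvPolynomial.totalDegree_neg]; exact h1
  have hPc : ∀ s, P.coeff s ∈ aff V ^ n := by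
    intro s
    rw [hP, Matrix.det_apply, MvPolynomial.coeff_sum]
    refine Submodule.sum_mem _ fun τ _ => ?_
    have h1 : CoeffIn (aff V) n (∏ i, Matrix.of L (τ i) i) := by
      have := CoeffIn.prod (E := aff V) (Finset.univ : Finset (Fin n)) (fun _ => 1)
        (fun i => Matrix.of L (τ i) i) (fun i _ => hLc _ _)
      simpa using this
    rcases Int.units_eq_one_or (Equiv.Perm.sign τ) with h2 | h2
    · rw [h2, one_smul]; exact h1 s
    · rw [h2, Units.neg_smul, one_smul, MvPolynomial.coeff_neg]; exact Submodule.neg_mem _ (h1 s)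
  intro X
  rw [← hev, h P hPdeg hPc (by rw [hev, h0]), map_zero]

/-- **Extension of good spaces.** -/
theorem zeroProp_extend (hF : ∀ c : F, IsAlgebraic ℚ (algebraMap F C c)) (V : Submodule F C)
    [Module.Finite F V] (hV : ZeroProp V) {σ : Type} [Fintype σ] (l : σ → C) (D : ℕ)
    (hD : finrank F V + Fintype.card σ + 1 ≤ D) (h : FreeOver (aff V ^ D) D l) :
    finrank F (V ⊔ Submodule.span F (Set.range l) : Submodule F C) = finrank F V + Fintype.card σ ∧
      ZeroProp (V ⊔ Submodule.span F (Set.range l)) := by
  refine Pool.Agent.Y921.SR.extend V hV l fun n hn W c hW h0 => ?_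
  refine det_ident hF V l ?_ W c hW h0
  exact (h.mono (pow_le_pow_right' (Submodule.one_le.2 (one_mem_aff V)) (hn.trans hD))).mono_deg
    (hn.trans hD)

end Aff

end Pool.Agent.H443.VF
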