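import Mathlib
import Pool.Agent.H443.VF.Sys
import Pool.Agent.H443.NF.Tup

/-!
# Tuples
-/

set_option autoImplicit false

namespace Pool.Agent.H443.VF

open NumberField Finset
open Pool.Agent.H297R2 (Ex)

/-- reindexing -/
def sigEquiv (k : ℕ) (M : Fin (k + 1) → Type) :
    M 0 ⊕ (Σ j : Fin k, M j.succ) ≃ (Σ j : Fin (k + 1), M j) where
  toFun s := match s with
    | Sum.inl c => ⟨0, c⟩
    | Sum.inr ⟨j, c⟩ => ⟨j.succ, c⟩
  invFun s := match s with
    | ⟨j, c⟩ => Fin.cases (motive := fun j => M j → M 0 ⊕ (Σ j : Fin k, M j.succ))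
        (fun c => Sum.inl c) (fun j c => Sum.inr ⟨j, c⟩) j c
  left_inv s := by
    rcases s with c | ⟨j, c⟩ <;> simp
  right_inv s := by
    rcases s with ⟨j, c⟩
    revert c
    refine Fin.cases ?_ (fun j => ?_) j
    · intro c; simp
    · intro c; simp

/-- the element with coordinates `x` -/
noncomputable def elt {K : Type} [Field K] [NumberField K] {ι : Type} [Fintype ι]
    (b : Module.Basis ι ℚ K) (x : ι → ℤ) : K := ∑ i, (x i : K) * b i

open Classical in
/-- the boxes -/
noncomputable def box (ι : Type) [Fintype ι] (N : ℕ) : Finset (ι → ℤ) :=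
  Fintype.piFinset fun _ : ι => Finset.Icc (-(N : ℤ)) N

theorem mem_box {ι : Type} [Fintype ι] {N : ℕ} {x : ι → ℤ} : x ∈ box ι N ↔ ∀ i, |x i| ≤ N := by
  classical
  unfold box
  rw [Fintype.mem_piFinset]
  simp only [Finset.mem_Icc, abs_le]

open Classical in
/-- **Tuples.** -/
theorem tuples (D : ℕ) (k : ℕ) : ∀ (K : Fin k → Type) [∀ j, Field (K j)] [∀ j, NumberField (K j)]
    (ι : Fin k → Type) [∀ j, Fintype (ι j)] (b : ∀ j, Module.Basis (ι j) ℚ (K j)) (n : ℕ)
    (ε : ℝ), 0 < ε → ∃ N₀ : ℕ, ∀ N : Fin k → ℕ, (∀ j, N₀ ≤ N j) →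
    ∀ (C : Type) [Field C] [CharZero C] [IsAlgClosed C] (𝓢 : LogSys C)
    (W : Submodule (algebraicClosure ℚ C) C), Module.Finite (algebraicClosure ℚ C) W →
    Module.finrank (algebraicClosure ℚ C) W ≤ n → ∀ s : (Σ j : Fin k, (K j →+* C)) → C,
      (((Fintype.piFinset fun j => box (ι j) (N j)).filter fun x => (∀ j, x j ≠ 0) ∧
        ¬ FreeOver W D (fun z : Σ j : Fin k, (K j →+* C) =>
          𝓢.lg (z.2 (elt (b z.1) (x z.1))) + s z)).card : ℝ) ≤
      ε * ∏ j, ((box (ι j) (N j)).card : ℝ) := by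
  induction k with
  | zero =>
    intro K _ _ ι _ b n ε hε
    refine ⟨0, fun N _ C _ _ _ 𝓢 W _ _ s => ?_⟩
    rw [Finset.filter_false_of_mem]
    · simp [hε.le]
    · intro x _
      push Not
      intro _
      exact FreeOver.of_isEmpty W D _
  | succ k ih =>
    intro K _ _ ι _ b n ε hε
    set m₀ := Module.finrank ℚ (K 0) with hm₀
    obtain ⟨N₁, hN₁⟩ := density_basis (K 0) (b 0) n D (ε / 2) (by linarith)
    obtain ⟨N₂, hN₂⟩ := ih (fun j => K j.succ) (fun j => ι j.succ) (fun j => b j.succ)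
      (Fintype.card (Ex (Fin m₀) D) * n) (ε / 2) (by linarith)
    refine ⟨max N₁ N₂, fun N hN C _ _ _ 𝓢 W hWf hWn s => ?_⟩
    set bad : (∀ j, ι j → ℤ) → Prop := fun x => (∀ j, x j ≠ 0) ∧
        ¬ FreeOver W D (fun z : Σ j : Fin (k + 1), (K j →+* C) =>
          𝓢.lg (z.2 (elt (b z.1) (x z.1))) + s z) with hbad
    set B := (Fintype.piFinset fun j => box (ι j) (N j)).filter bad with hB
    set L₀ : (ι 0 → ℤ) → (K 0 →+* C) → C := fun x ρ => 𝓢.lg (ρ (elt (b 0) x)) + s ⟨0, ρ⟩ with hL₀
    set A := (box (ι 0) (N 0)).filter (fun x => x ≠ 0 ∧ ¬ FreeOver W D (L₀ x)) with hA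
    have hAcard : (A.card : ℝ) ≤ ε / 2 * (box (ι 0) (N 0)).card := by
      have h1 := hN₁ (N 0) ((le_max_left _ _).trans (hN 0)) C 𝓢 W hWf hWn (fun ρ => s ⟨0, ρ⟩)
      refine le_trans (Nat.cast_le.2 (Finset.card_le_card ?_)) h1
      intro x hx
      rw [hA, Finset.mem_filter] at hx
      rw [Finset.mem_filter]
      exact hx
    set Z : ℝ := ∏ j : Fin k, ((box (ι j.succ) (N j.succ)).card : ℝ) with hZ
    have hZ0 : 0 ≤ Z := Finset.prod_nonneg fun _ _ => Nat.cast_nonneg _
    have hfib : B.card = ∑ a ∈ box (ι 0) (N 0), (B.filter (fun x => x 0 = a)).card := by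
      apply Finset.card_eq_sum_card_fiberwise
      intro x hx
      have hx' : x ∈ B := hx
      rw [hB, Finset.mem_filter, Fintype.mem_piFinset] at hx'
      exact hx'.1 0
    set Ps : Finset (∀ j : Fin k, (ι j.succ → ℤ)) :=
      Fintype.piFinset fun j : Fin k => box (ι j.succ) (N j.succ) with hPs
    have hPc : (Ps.card : ℝ) = Z := by
      rw [hPs, Fintype.card_piFinset, hZ]
      push_cast
      rfl
    have hle : ∀ a, (B.filter (fun x => x 0 = a)).card ≤
        (Ps.filter (fun y => bad (Fin.cons a y))).card := by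
      intro a
      apply Finset.card_le_card_of_injOn (fun x => Fin.tail x)
      · intro x hx
        have hx' : x ∈ B.filter (fun x => x 0 = a) := hx
        rw [Finset.mem_filter, hB, Finset.mem_filter, Fintype.mem_piFinset] at hx'
        have hcons : (Fin.cons a (Fin.tail x) : ∀ j, (ι j → ℤ)) = x := by
          rw [← hx'.2]; exact Fin.cons_self_tail x
        show Fin.tail x ∈ _
        rw [Finset.mem_coe, Finset.mem_filter, hPs, Fintype.mem_piFinset]
        refine ⟨fun j => hx'.1.1 j.succ, ?_⟩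
        rw [hcons]
        exact hx'.1.2
      · intro x hx y hy h
        have hx' : x ∈ B.filter (fun x => x 0 = a) := hx
        have hy' : y ∈ B.filter (fun x => x 0 = a) := hy
        rw [Finset.mem_filter] at hx' hy'
        rw [← Fin.cons_self_tail x, ← Fin.cons_self_tail y, hx'.2, hy'.2]
        have : Fin.tail x = Fin.tail y := h
        rw [this]
    have hgood : ∀ a ∈ box (ι 0) (N 0), a ∉ A →
        ((Ps.filter (fun y => bad (Fin.cons a y))).card : ℝ) ≤ ε / 2 * Z := by
      intro a ha haA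
      by_cases h0 : a ≠ 0
      · have hta : FreeOver W D (L₀ a) := by
          by_contra hcon
          apply haA
          rw [hA, Finset.mem_filter]
          exact ⟨ha, h0, hcon⟩
        have hcard : Fintype.card (K 0 →+* C) = m₀ := NumberField.Embeddings.card (K 0) C
        have hf := mulExt_finite W D (L₀ a)
        have hfr : Module.finrank (algebraicClosure ℚ C) (mulExt W D (L₀ a)) ≤
            Fintype.card (Ex (Fin m₀) D) * n := by
          refine (finrank_mulExt_le W D (L₀ a)).trans ?_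
          rw [card_Ex (K 0 →+* C) m₀ D hcard]
          exact Nat.mul_le_mul_left _ hWn
        have h1 := hN₂ (fun j => N j.succ) (fun j => (le_max_right _ _).trans (hN j.succ)) C 𝓢
          (mulExt W D (L₀ a)) hf hfr (fun z => s ⟨z.1.succ, z.2⟩)
        refine le_trans (Nat.cast_le.2 (Finset.card_le_card ?_)) h1
        intro y hy
        rw [Finset.mem_filter] at hy ⊢
        refine ⟨hy.1, fun j => hy.2.1 j.succ, ?_⟩
        intro hno
        apply hy.2.2
        apply FreeOver.of_equiv (sigEquiv k fun j => (K j →+* C))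
        have h2 := FreeOver.sum hta hno
        have h3 : (fun z : Σ j : Fin (k + 1), (K j →+* C) =>
            𝓢.lg (z.2 (elt (b z.1) ((Fin.cons a y : ∀ j, (ι j → ℤ)) z.1))) + s z) ∘
            (sigEquiv k fun j => (K j →+* C)) =
            Sum.elim (L₀ a) (fun z : Σ j : Fin k, (K j.succ →+* C) =>
              𝓢.lg (z.2 (elt (b z.1.succ) (y z.1))) + s ⟨z.1.succ, z.2⟩) := by
          funext u
          rcases u with c | ⟨j, c⟩
          · rfl
          · rfl
        rw [h3]
        exact h2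
      · rw [Finset.filter_false_of_mem]
        · rw [Finset.card_empty, Nat.cast_zero]
          exact mul_nonneg (by linarith) hZ0
        · intro y _ hy
          exact h0 (hy.1 0)
    have htriv : ∀ a, ((Ps.filter (fun y => bad (Fin.cons a y))).card : ℝ) ≤ Z := by
      intro a
      rw [← hPc]
      exact Nat.cast_le.2 (Finset.card_filter_le _ _)
    have hAsub : A ⊆ box (ι 0) (N 0) := Finset.filter_subset _ _
    have h1 := Pool.Agent.H443.NF.sum_split (box (ι 0) (N 0)) A hAsub
      (fun a => ((B.filter (fun x => x 0 = a)).card : ℝ)) Z (ε / 2 * Z)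
      (fun a _ => (Nat.cast_le.2 (hle a)).trans (htriv a))
      (fun a ha haA => (Nat.cast_le.2 (hle a)).trans (hgood a ha haA))
      (mul_nonneg (by linarith) hZ0) hZ0
    have h2 : (B.card : ℝ) = ∑ a ∈ box (ι 0) (N 0), ((B.filter (fun x => x 0 = a)).card : ℝ) := by
      rw [hfib, Nat.cast_sum]
    have h3 : ∏ j : Fin (k + 1), ((box (ι j) (N j)).card : ℝ) = (box (ι 0) (N 0)).card * Z :=
      Fin.prod_univ_succ _
    rw [h3, h2]
    refine h1.trans ?_
    have h4 : (A.card : ℝ) * Z ≤ (ε / 2 * (box (ι 0) (N 0)).card) * Z :=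
      mul_le_mul_of_nonneg_right hAcard hZ0
    calc (A.card : ℝ) * Z + (box (ι 0) (N 0)).card * (ε / 2 * Z)
        ≤ (ε / 2 * (box (ι 0) (N 0)).card) * Z + (box (ι 0) (N 0)).card * (ε / 2 * Z) :=
          add_le_add h4 le_rfl
      _ = ε * ((box (ι 0) (N 0)).card * Z) := by ring

end Pool.Agent.H443.VF
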