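import Mathlib
import Pool.Agent.H443.VF.Tup
import Pool.Agent.H443.VF.CInst
import Pool.Agent.H443.VF.Sing

/-!
# Freeness of the logarithms of the conjugates, and spaces spanned by them
-/

set_option autoImplicit false

namespace Pool.Agent.H443.VF

open NumberField Finset Module
open Pool.Agent.Y921.SR (ZeroProp Mt)

/-- membership in a filtered set, for any decidability instance -/
theorem mem_filt {α : Type*} {p : α → Prop} {inst : DecidablePred p} {s : Finset α} {a : α} :
    a ∈ @Finset.filter α p inst s ↔ a ∈ s ∧ p a := Finset.mem_filter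

section

variable {k : ℕ} (K : Fin k → Type) [∀ j, Field (K j)] [∀ j, NumberField (K j)]
  (ι : Fin k → Type) [∀ j, Fintype (ι j)]
  (b : ∀ j, Module.Basis (ι j) ℚ (K j))

/-- determinations of the logarithms of the conjugates of a tuple -/
def IsDet {C : Type} [Field C] [CharZero C] (𝓢 : LogSys C) (x : ∀ j, ι j → ℤ)
    (L : (Σ j : Fin k, (K j →+* C)) → C) : Prop :=
  ∀ z, ∃ a : ℤ, L z = 𝓢.lg (z.2 (elt (b z.1) (x z.1))) + a * 𝓢.tau

theorem card_box (N : Fin k → ℕ) (j : Fin k) : ((box (ι j) (N j)).card : ℝ) =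
    (2 * (N j : ℝ) + 1) ^ Fintype.card (ι j) := by
  classical
  unfold box
  rw [Fintype.card_piFinset]
  simp only [Int.card_Icc, Finset.prod_const, Finset.card_univ]
  have h4 : ((N j : ℤ) + 1 - -(N j : ℤ)).toNat = 2 * N j + 1 := by omega
  rw [h4]
  push_cast
  rfl

/-- **Freeness for all determinations.** -/
theorem tuples_det (n D : ℕ) (ε : ℝ) (hε : 0 < ε) : ∃ N₀ : ℕ, ∀ N : Fin k → ℕ, (∀ j, N₀ ≤ N j) →
    ∀ (C : Type) [Field C] [CharZero C] [IsAlgClosed C] (𝓢 : LogSys C)
    (W : Submodule (algebraicClosure ℚ C) C), Module.Finite (algebraicClosure ℚ C) W →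
    Module.finrank (algebraicClosure ℚ C) W ≤ n →
    ∀ A : Finset (∀ j, ι j → ℤ), (A ⊆ Fintype.piFinset fun j => box (ι j) (N j)) →
    (∀ x ∈ A, (∀ j, x j ≠ 0) ∧ ∃ L, IsDet K ι b 𝓢 x L ∧ ¬ FreeOver W D L) →
    (A.card : ℝ) ≤ ε * ∏ j, (2 * (N j : ℝ) + 1) ^ Module.finrank ℚ (K j) := by
  classical
  obtain ⟨N₀, hN₀⟩ := tuples D k K ι b (n * 2 ^ D) ε hε
  refine ⟨N₀, fun N hN C _ _ _ 𝓢 W hWf hWn A hA hbad => ?_⟩
  set E : Submodule (algebraicClosure ℚ C) C :=
    Submodule.span (algebraicClosure ℚ C) (Set.range ![1, 𝓢.tau]) with hE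
  have hEf : Module.Finite (algebraicClosure ℚ C) E :=
    FiniteDimensional.span_of_finite _ (Set.finite_range _)
  have hE2 : finrank (algebraicClosure ℚ C) E ≤ 2 := by
    exact (finrank_range_le_card _).trans (by simp)
  have h1E : (1 : C) ∈ E := Submodule.subset_span ⟨0, rfl⟩
  have htE : 𝓢.tau ∈ E := Submodule.subset_span ⟨1, rfl⟩
  obtain ⟨h1, h2⟩ := finrank_pow_le E 2 hE2 D
  obtain ⟨h3, h4⟩ := finrank_mul_le W (E ^ D)
  have h5 := hN₀ N hN C 𝓢 (W * E ^ D) h3 (h4.trans (Nat.mul_le_mul hWn h2)) (fun _ => 0)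
  have h6 : ∏ j, ((box (ι j) (N j)).card : ℝ) = ∏ j, (2 * (N j : ℝ) + 1) ^ Module.finrank ℚ (K j) := by
    refine Finset.prod_congr rfl fun j _ => ?_
    rw [card_box, ← Module.finrank_eq_card_basis (b j)]
  rw [← h6]
  refine le_trans (Nat.cast_le.2 (Finset.card_le_card ?_)) h5
  · intro x hx
    obtain ⟨hx0, L, hL, hno⟩ := hbad x hx
    rw [mem_filt]
    refine ⟨?_, hx0, ?_⟩
    · have h7 := hA hx
      rw [Fintype.mem_piFinset] at h7 ⊢
      exact h7
    · intro hfree
      apply hno
      choose a ha using hL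
      have h7 : L = fun z => (𝓢.lg (z.2 (elt (b z.1) (x z.1))) + 0) + (a z : C) * 𝓢.tau := by
        funext z
        rw [ha z, add_zero]
      rw [h7]
      refine FreeOver.shift h1E (fun z => ?_) hfree
      have h8 : (a z : C) * 𝓢.tau = ((a z : algebraicClosure ℚ C)) • 𝓢.tau := by
        rw [Algebra.smul_def, map_intCast]
      rw [h8]
      exact Submodule.smul_mem _ _ htE

end

section Four

variable {C : Type} [Field C] [CharZero C] {F : Type} [Field F] [CharZero F] [Algebra F C]

/-- **The strong four exponentials statement for the matrices which do not come from `V`.** -/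
theorem four (hF : ∀ c : F, IsAlgebraic ℚ (algebraMap F C c)) (V : Submodule F C)
    {σ : Type} [Fintype σ] (l : σ → C) (h : FreeOver (aff V ^ 2) 2 l)
    (M : Matrix (Fin 2) (Fin 2) C) (hM : ∀ i j, M i j ∈ V ⊔ Submodule.span F (Set.range l))
    (hV : ∃ i j, M i j ∉ V) (hr : LinearIndependent F (fun i : Fin 2 => fun j : Fin 2 => M i j))
    (hc : LinearIndependent F (fun j : Fin 2 => fun i : Fin 2 => M i j)) : M.det ≠ 0 := by
  classical
  intro hdet
  have h2 : ∀ i j, ∃ (w : C) (c : σ → F), w ∈ V ∧ M i j = w + ∑ p, c p • l p := by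
    intro i j
    obtain ⟨w, hw, s, hs, hws⟩ := Submodule.mem_sup.1 (hM i j)
    obtain ⟨c, hc⟩ := (Submodule.mem_span_range_iff_exists_fun F).1 hs
    exact ⟨w, c, hw, by rw [hc, hws]⟩
  choose W c hW hWc using h2
  have hMt : Mt W c l = M := by
    ext i j
    simp only [Mt, Matrix.of_apply, ← hWc]
  have hid := det_ident hF V l h W c hW (by rw [hMt, hdet])
  -- a nonzero direction
  obtain ⟨i₀, j₀, p, hp⟩ : ∃ i j p, c i j p ≠ 0 := by
    by_contra hcon
    push Not at hcon
    obtain ⟨i, j, hij⟩ := hV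
    apply hij
    rw [hWc i j, Finset.sum_eq_zero fun p _ => by rw [hcon i j p, zero_smul], add_zero]
    exact hW i j
  have hdir : ∀ t : C, (M 0 0 + t * algebraMap F C (c 0 0 p)) * (M 1 1 + t * algebraMap F C (c 1 1 p)) -
      (M 0 1 + t * algebraMap F C (c 0 1 p)) * (M 1 0 + t * algebraMap F C (c 1 0 p)) = 0 := by
    intro t
    have h3 := hid (l + Pi.single p t)
    have h4 : ∀ i j, Mt W c (l + Pi.single p t) i j = M i j + t * algebraMap F C (c i j p) := by
      intro i j
      simp only [Mt, Matrix.of_apply, Pi.add_apply, smul_add, Finset.sum_add_distrib]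
      rw [← add_assoc, ← hWc i j]
      congr 1
      rw [Finset.sum_eq_single p]
      · rw [Pi.single_eq_same, Algebra.smul_def, mul_comm]
      · intro q _ hq
        rw [Pi.single_eq_of_ne hq, smul_zero]
      · intro h; exact absurd (Finset.mem_univ _) h
    rw [Matrix.det_fin_two] at h3
    simp only [h4] at h3
    exact h3
  rw [Matrix.det_fin_two] at hdet
  set a : Fin 2 → Fin 2 → C := fun i j => algebraMap F C (c i j p) with ha
  have h5 := hdir 1
  have h6 := hdir (-1)
  have hN : a 0 0 * a 1 1 - a 0 1 * a 1 0 = 0 := by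
    have : (2 : C) ≠ 0 := two_ne_zero
    apply mul_left_cancel₀ this
    simp only [ha]
    linear_combination h5 + h6 - 2 * hdet
  have hB : M 0 0 * a 1 1 + M 1 1 * a 0 0 - M 0 1 * a 1 0 - M 1 0 * a 0 1 = 0 := by
    have : (2 : C) ≠ 0 := two_ne_zero
    apply mul_left_cancel₀ this
    simp only [ha]
    linear_combination h5 - h6
  -- the vectors
  set w : Fin 2 → F := ![c 1 j₀ p, - c 0 j₀ p] with hw
  set v : Fin 2 → F := ![c i₀ 1 p, - c i₀ 0 p] with hv
  have hw0 : w ≠ 0 := by
    intro h0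
    have e0 : c 1 j₀ p = 0 := by simpa [hw] using congrFun h0 0
    have e1 : c 0 j₀ p = 0 := by simpa [hw] using congrFun h0 1
    fin_cases i₀
    · exact hp e1
    · exact hp e0
  have hv0 : v ≠ 0 := by
    intro h0
    have e0 : c i₀ 1 p = 0 := by simpa [hv] using congrFun h0 0
    have e1 : c i₀ 0 p = 0 := by simpa [hv] using congrFun h0 1
    fin_cases j₀
    · exact hp e1
    · exact hp e0
  have hzero : a 1 j₀ * (M 0 0 * a i₀ 1 - M 0 1 * a i₀ 0) -
      a 0 j₀ * (M 1 0 * a i₀ 1 - M 1 1 * a i₀ 0) = 0 := by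
    fin_cases i₀ <;> fin_cases j₀ <;> simp only [Fin.zero_eta, Fin.mk_one]
    · linear_combination a 0 0 * hB - M 0 0 * hN
    · linear_combination a 0 1 * hB - M 0 1 * hN
    · linear_combination a 1 0 * hB - M 1 0 * hN
    · linear_combination a 1 1 * hB - M 1 1 * hN
  -- the column
  set x₀ : C := M 0 0 * a i₀ 1 - M 0 1 * a i₀ 0 with hx₀
  set x₁ : C := M 1 0 * a i₀ 1 - M 1 1 * a i₀ 0 with hx₁
  have hx : x₀ ≠ 0 ∨ x₁ ≠ 0 := by
    by_contra hcon
    push Not at hcon
    apply hv0
    have h7 := Fintype.linearIndependent_iff.1 hc v (by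
      funext i
      rw [Fin.sum_univ_two]
      show c i₀ 1 p • M i 0 + (- c i₀ 0 p) • M i 1 = 0
      rw [Algebra.smul_def, Algebra.smul_def, map_neg]
      fin_cases i
      · have := hcon.1
        simp only [hx₀, ha] at this
        simp only [Fin.zero_eta]
        linear_combination this
      · have := hcon.2
        simp only [hx₁, ha] at this
        simp only [Fin.mk_one]
        linear_combination this)
    funext i
    exact h7 i
  obtain ⟨z, hz0, hz⟩ := Matrix.exists_vecMul_eq_zero_iff.2 (show M.det = 0 by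
    rw [Matrix.det_fin_two]; exact hdet)
  have hz0' := congrFun hz 0
  have hz1' := congrFun hz 1
  simp only [Matrix.vecMul, dotProduct, Fin.sum_univ_two, Pi.zero_apply] at hz0' hz1'
  have hzx : z 0 * x₀ + z 1 * x₁ = 0 := by
    simp only [hx₀, hx₁]
    linear_combination a i₀ 1 * hz0' - a i₀ 0 * hz1'
  have hpar : a 1 j₀ * z 1 + a 0 j₀ * z 0 = 0 := by
    rcases hx with hx | hx
    · apply mul_left_cancel₀ hx
      linear_combination z 1 * hzero + a 0 j₀ * hzx
    · apply mul_left_cancel₀ hx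
      linear_combination a 1 j₀ * hzx - z 0 * hzero
  apply hw0
  have h7 := Fintype.linearIndependent_iff.1 hr w (by
    funext j
    rw [Fin.sum_univ_two]
    show c 1 j₀ p • M 0 j + (- c 0 j₀ p) • M 1 j = 0
    rw [Algebra.smul_def, Algebra.smul_def, map_neg]
    change a 1 j₀ * M 0 j + - a 0 j₀ * M 1 j = 0
    have hzj : z 0 * M 0 j + z 1 * M 1 j = 0 := by
      fin_cases j
      · exact hz0'
      · exact hz1'
    have hzne : z 0 ≠ 0 ∨ z 1 ≠ 0 := by
      by_contra hcon
      push Not at hcon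
      apply hz0
      funext i
      fin_cases i
      · exact hcon.1
      · exact hcon.2
    rcases hzne with hz' | hz'
    · apply mul_left_cancel₀ hz'
      linear_combination a 1 j₀ * hzj - M 1 j * hpar
    · apply mul_left_cancel₀ hz'
      linear_combination M 0 j * hpar - a 0 j₀ * hzj)
  funext i
  exact h7 i

/-- a free tuple is linearly independent modulo `V` -/
theorem finrank_ext (hF : ∀ c : F, IsAlgebraic ℚ (algebraMap F C c)) (V : Submodule F C)
    [Module.Finite F V] {σ : Type} [Fintype σ] (l : σ → C) {D : ℕ} (hD : 1 ≤ D)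
    (h : FreeOver (aff V ^ D) D l) :
    finrank F (V ⊔ Submodule.span F (Set.range l) : Submodule F C) =
      finrank F V + Fintype.card σ := by
  classical
  have hle : aff V ≤ aff V ^ D := by
    conv_lhs => rw [← pow_one (aff V)]
    exact pow_le_pow_right' (Submodule.one_le.2 (one_mem_aff V)) hD
  have h1 : ∀ (w : C) (c : σ → F), w ∈ V → w + ∑ p, c p • l p = 0 → ∀ p, c p = 0 := by
    intro w c hw h0 p
    have h2 := h.linear hD w (hle (mem_aff V hw)) (fun p => algebraMap F C (c p))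
      (fun p => hle (algebraic_mem_aff V (hF _))) (by
        rw [← h0]
        congr 1
        exact Finset.sum_congr rfl fun p _ => by rw [Algebra.smul_def])
    exact (map_eq_zero _).1 (h2.2 p)
  have hli : LinearIndependent F l := by
    rw [Fintype.linearIndependent_iff]
    intro g hg
    exact h1 0 g V.zero_mem (by rw [zero_add, hg])
  have hdis : V ⊓ Submodule.span F (Set.range l) = ⊥ := by
    rw [Submodule.eq_bot_iff]
    rintro x ⟨hxV, hxS⟩
    obtain ⟨c, hc⟩ := (Submodule.mem_span_range_iff_exists_fun F).1 hxS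
    have h2 := h1 (-x) c (V.neg_mem hxV) (by rw [hc]; ring)
    rw [← hc]
    exact Finset.sum_eq_zero fun p _ => by rw [h2 p, zero_smul]
  have hf : Module.Finite F (Submodule.span F (Set.range l)) :=
    FiniteDimensional.span_of_finite F (Set.finite_range l)
  have h2 := Submodule.finrank_sup_add_finrank_inf_eq V (Submodule.span F (Set.range l))
  rw [hdis, finrank_bot, add_zero, finrank_span_eq_card hli] at h2
  exact h2

end Four

section Ext

variable {k : ℕ} (K : Fin k → Type) [∀ j, Field (K j)] [∀ j, NumberField (K j)]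
  (ι : Fin k → Type) [∀ j, Fintype (ι j)]
  (b : ∀ j, Module.Basis (ι j) ℚ (K j))

/-- the space `V` with the numbers `L` adjoined is good -/
def GoodExt {C F : Type} [Field C] [Field F] [Algebra F C] (V : Submodule F C) {σ : Type}
    (L : σ → C) (d : ℕ) : Prop :=
  finrank F (V ⊔ Submodule.span F (Set.range L) : Submodule F C) = finrank F V + d ∧
  (ZeroProp V → ZeroProp (V ⊔ Submodule.span F (Set.range L))) ∧
  ∀ M : Matrix (Fin 2) (Fin 2) C, (∀ i j, M i j ∈ V ⊔ Submodule.span F (Set.range L)) →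
    (∃ i j, M i j ∉ V) → LinearIndependent F (fun i : Fin 2 => fun j : Fin 2 => M i j) →
    LinearIndependent F (fun j : Fin 2 => fun i : Fin 2 => M i j) → M.det ≠ 0

/-- **Almost all extensions are good.** -/
theorem ext (m : ℕ) (ε : ℝ) (hε : 0 < ε) : ∃ N₀ : ℕ, ∀ N : Fin k → ℕ, (∀ j, N₀ ≤ N j) →
    ∀ (C : Type) [Field C] [CharZero C] [IsAlgClosed C] (𝓢 : LogSys C)
    (F : Type) [Field F] [CharZero F] [Algebra F C], (∀ c : F, IsAlgebraic ℚ (algebraMap F C c)) →
    ∀ V : Submodule F C, Module.Finite F V → finrank F V ≤ m →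
    ∀ A : Finset (∀ j, ι j → ℤ), (A ⊆ Fintype.piFinset fun j => box (ι j) (N j)) →
    (∀ x ∈ A, (∀ j, x j ≠ 0) ∧ ∃ L, IsDet K ι b 𝓢 x L ∧
      ¬ GoodExt V L (∑ j, finrank ℚ (K j))) →
    (A.card : ℝ) ≤ ε * ∏ j, (2 * (N j : ℝ) + 1) ^ finrank ℚ (K j) := by
  classical
  set D : ℕ := m + ∑ j, finrank ℚ (K j) + 2 with hD
  obtain ⟨N₀, hN₀⟩ := tuples_det K ι b ((m + 1) ^ D) D ε hε
  refine ⟨N₀, fun N hN C _ _ _ 𝓢 F _ _ _ hF V hVf hVm A hA hbad => ?_⟩
  have h1 := aff_finite hF V
  obtain ⟨h2, h3⟩ := finrank_pow_le (aff V) (m + 1) ((finrank_aff_le hF V).trans (by omega)) D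
  refine hN₀ N hN C 𝓢 (aff V ^ D) h2 h3 A hA fun x hx => ?_
  obtain ⟨hx0, L, hL, hno⟩ := hbad x hx
  refine ⟨hx0, L, hL, fun hfree => hno ?_⟩
  have hcard : Fintype.card (Σ j : Fin k, (K j →+* C)) = ∑ j, finrank ℚ (K j) := by
    rw [Fintype.card_sigma]
    exact Finset.sum_congr rfl fun j _ => NumberField.Embeddings.card (K j) C
  refine ⟨?_, fun hV => ?_, fun M hM hMV hr hc => ?_⟩
  · rw [finrank_ext hF V L (by omega) hfree, hcard]
  · exact (zeroProp_extend hF V hV L D (by rw [hcard]; omega) hfree).2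
  · exact four hF V L ((hfree.mono (pow_le_pow_right' (Submodule.one_le.2 (one_mem_aff V))
      (by omega))).mono_deg (by omega)) M hM hMV hr hc

end Ext

end Pool.Agent.H443.VF
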